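import Pool.Agent.T9h53.LZ.Gb

/-!
# (M2b): power saving from polynomial growth left of `Re s = 1`
-/

set_option autoImplicit false

namespace Pool.Agent.T9h53.LZ

open MeasureTheory Filter Topology Set

lemma abs_exp_sub_one (z : ℝ) : |Real.exp z - 1| ≤ |z| * Real.exp |z| := by
  rcases le_or_gt 0 z with h | h
  · rw [abs_of_nonneg (by have := Real.one_le_exp h; linarith), abs_of_nonneg h]
    have h1 := Real.add_one_le_exp (-z)
    have h2 : Real.exp z * Real.exp (-z) = 1 := by rw [← Real.exp_add]; simp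
    have h3 := Real.exp_pos z
    nlinarith
  · have h1 := Real.add_one_le_exp z
    have h2 : Real.exp z ≤ 1 := Real.exp_le_one_iff.2 h.le
    rw [abs_of_nonpos (by linarith), abs_of_neg h]
    have h3 : 1 ≤ Real.exp (-z) := Real.one_le_exp (by linarith)
    nlinarith

lemma sum_diff {f : ℕ → ℂ} (hf : ∀ n, ‖f n‖ ≤ 1) (N M : ℕ) :
    ‖∑ n ∈ Finset.Icc 1 N, f n - ∑ n ∈ Finset.Icc 1 M, f n‖ ≤ |(N : ℝ) - M| := by
  have key : ∀ N M : ℕ, N ≤ M → ‖∑ n ∈ Finset.Icc 1 M, f n - ∑ n ∈ Finset.Icc 1 N, f n‖ ≤ (M : ℝ) - N := by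
    intro N M h
    have h1 : Finset.Icc 1 N ⊆ Finset.Icc 1 M := Finset.Icc_subset_Icc_right h
    rw [← Finset.sum_sdiff h1, add_sub_cancel_right]
    refine (norm_sum_le _ _).trans ((Finset.sum_le_sum fun n _ => hf n).trans ?_)
    rw [Finset.sum_const, nsmul_eq_mul, mul_one, Finset.card_sdiff_of_subset h1, Nat.card_Icc, Nat.card_Icc]
    simp only [Nat.add_sub_cancel]
    rw [Nat.cast_sub h]
  rcases le_total N M with h | h
  · rw [norm_sub_rev, abs_sub_comm, abs_of_nonneg (by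
      have : (N : ℝ) ≤ M := by exact_mod_cast h
      linarith)]
    exact key N M h
  · rw [abs_of_nonneg (by
      have : (M : ℝ) ≤ N := by exact_mod_cast h
      linarith)]
    exact key M N h

/-- comparison of the smooth and the sharp sum -/
lemma Sm_diff {f : ℕ → ℂ} (hf : ∀ n, ‖f n‖ ≤ 1) {R : ℕ} (hR : 1 ≤ R) {σ : ℝ} (hσ : 0 < σ) (hσ1 : σ ≤ 1) :
    ‖∑ n ∈ Finset.Icc 1 R, f n‖ ≤ ‖Sm f R σ‖ +
      ((R : ℝ) * σ * (∫ u, Real.exp (2 * |u|) * ph u) + 1) := by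
  have hR0 : (0 : ℝ) < R := by exact_mod_cast hR
  set S : ℝ → ℂ := fun u => ∑ n ∈ Finset.Icc 1 ⌊(R : ℝ) * Real.exp (-(σ * u))⌋₊, f n with hS
  have hSm : Measurable S := by
    have h1 : Measurable (fun N : ℕ => ∑ n ∈ Finset.Icc 1 N, f n) := measurable_of_countable _
    have h2 : Measurable (fun u : ℝ => ⌊(R : ℝ) * Real.exp (-(σ * u))⌋₊) := by
      refine Nat.measurable_floor.comp ?_
      have : Continuous (fun u : ℝ => (R : ℝ) * Real.exp (-(σ * u))) := by fun_prop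
      exact this.measurable
    exact h1.comp h2
  have hfl : ∀ u : ℝ, |((⌊(R : ℝ) * Real.exp (-(σ * u))⌋₊ : ℕ) : ℝ) - R| ≤ R * σ * Real.exp (2 * |u|) + 1 := by
    intro u
    have h0 : 0 ≤ (R : ℝ) * Real.exp (-(σ * u)) := by positivity
    have h1 := Nat.floor_le h0
    have h2 := Nat.lt_floor_add_one ((R : ℝ) * Real.exp (-(σ * u)))
    have h3 : |(R : ℝ) * Real.exp (-(σ * u)) - R| ≤ R * σ * Real.exp (2 * |u|) := by
      have e : (R : ℝ) * Real.exp (-(σ * u)) - R = R * (Real.exp (-(σ * u)) - 1) := by ring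
      rw [e, abs_mul, abs_of_pos hR0, mul_assoc]
      refine mul_le_mul_of_nonneg_left ?_ hR0.le
      refine (abs_exp_sub_one _).trans ?_
      rw [abs_neg, abs_mul, abs_of_pos hσ]
      have h4 : |u| ≤ Real.exp |u| := by
        have := Real.add_one_le_exp |u|
        linarith
      have h5 : Real.exp (σ * |u|) ≤ Real.exp |u| := by
        apply Real.exp_le_exp.2
        have := abs_nonneg u
        nlinarith
      have h6 : Real.exp (2 * |u|) = Real.exp |u| * Real.exp |u| := by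
        rw [← Real.exp_add]
        congr 1
        ring
      rw [h6, mul_assoc]
      refine mul_le_mul_of_nonneg_left ?_ hσ.le
      exact mul_le_mul h4 h5 (Real.exp_pos _).le (Real.exp_pos _).le
    rw [abs_le] at h3 ⊢
    constructor <;> linarith [h3.1, h3.2]
  have hd : ∀ u, ‖(ph u : ℂ) * (S u - ∑ n ∈ Finset.Icc 1 R, f n)‖ ≤
      (R : ℝ) * σ * (Real.exp (2 * |u|) * ph u) + ph u := by
    intro u
    rw [norm_mul, Complex.norm_real, Real.norm_eq_abs, abs_of_nonneg (ph_nonneg u)]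
    have h1 := (sum_diff hf ⌊(R : ℝ) * Real.exp (-(σ * u))⌋₊ R).trans (hfl u)
    calc ph u * ‖S u - ∑ n ∈ Finset.Icc 1 R, f n‖ ≤ ph u * (R * σ * Real.exp (2 * |u|) + 1) :=
          mul_le_mul_of_nonneg_left h1 (ph_nonneg u)
      _ = _ := by ring
  have hgi : Integrable (fun u => (R : ℝ) * σ * (Real.exp (2 * |u|) * ph u) + ph u) :=
    ((exp_ph_int 2).const_mul _).add ph_int
  have hphm : Measurable (fun u => (ph u : ℂ)) := Complex.measurable_ofReal.comp ph_cont.measurable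
  have hi1 : Integrable (fun u => (ph u : ℂ) * (S u - ∑ n ∈ Finset.Icc 1 R, f n)) :=
    hgi.mono' (hphm.mul (hSm.sub_const _)).aestronglyMeasurable (Eventually.of_forall hd)
  have hi2 : Integrable (fun u => (ph u : ℂ) * ∑ n ∈ Finset.Icc 1 R, f n) :=
    ph_int.ofReal.mul_const _
  have e1 : Sm f R σ = (∫ u, (ph u : ℂ) * (S u - ∑ n ∈ Finset.Icc 1 R, f n)) + ∑ n ∈ Finset.Icc 1 R, f n := by
    generalize ∑ n ∈ Finset.Icc 1 R, f n = c at hi1 hi2 ⊢
    have h1 : ∫ u, (ph u : ℂ) * c = c := by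
      rw [integral_mul_const, integral_complex_ofReal, ph_integral]
      simp
    have h3 : Sm f R σ = ∫ u, ((ph u : ℂ) * (S u - c) + (ph u : ℂ) * c) := by
      unfold Sm
      congr 1
      funext u
      simp only [hS]
      ring
    rw [h3, integral_add hi1 hi2, h1]
  have h2 : ‖∫ u, (ph u : ℂ) * (S u - ∑ n ∈ Finset.Icc 1 R, f n)‖ ≤
      (R : ℝ) * σ * (∫ u, Real.exp (2 * |u|) * ph u) + 1 := by
    refine (norm_integral_le_of_norm_le hgi (Eventually.of_forall hd)).trans (le_of_eq ?_)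
    rw [integral_add ((exp_ph_int 2).const_mul _) ph_int, integral_const_mul, ph_integral]
  have e2 : ∑ n ∈ Finset.Icc 1 R, f n = Sm f R σ -
      ∫ u, (ph u : ℂ) * (S u - ∑ n ∈ Finset.Icc 1 R, f n) := by
    rw [e1]
    ring
  calc ‖∑ n ∈ Finset.Icc 1 R, f n‖ = ‖Sm f R σ -
      ∫ u, (ph u : ℂ) * (S u - ∑ n ∈ Finset.Icc 1 R, f n)‖ := by rw [← e2]
    _ ≤ _ := (norm_sub_le _ _).trans (by linarith)

lemma norm_HH {G : ℂ → ℂ} {σ L B A : ℝ} {s : ℂ} (hs : 1 / 2 ≤ s.re)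
    (hB : ‖G s‖ ≤ B * (|s.im| + 3) ^ A) (hσ1 : |σ| ≤ 1) (hs2 : s.re ≤ 2) :
    ‖HH G σ L s‖ ≤ Real.exp 2 * Real.exp (s.re * L) * 2 * B * ((|s.im| + 3) ^ A * Real.exp (-(σ ^ 2 / 2) * s.im ^ 2)) := by
  have e : s = (s.re : ℂ) + s.im * Complex.I := (Complex.re_add_im s).symm
  unfold HH
  rw [norm_mul, norm_mul, norm_div]
  have h1 : ‖Complex.exp (σ ^ 2 * s ^ 2 / 2)‖ =
      Real.exp (σ ^ 2 * s.re ^ 2 / 2) * Real.exp (-(σ ^ 2 / 2) * s.im ^ 2) := by
    conv_lhs => rw [e]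
    exact norm_exp_sq σ s.re s.im
  have h2 : ‖Complex.exp (s * L)‖ = Real.exp (s.re * L) := by
    rw [Complex.norm_exp, Complex.re_mul_ofReal]
  have h3 : 1 / 2 ≤ ‖s‖ := hs.trans ((le_abs_self _).trans (Complex.abs_re_le_norm s))
  have h4 : Real.exp (σ ^ 2 * s.re ^ 2 / 2) ≤ Real.exp 2 := by
    apply Real.exp_le_exp.2
    have h5 : σ ^ 2 ≤ 1 := by
      rw [← sq_abs]
      have := abs_nonneg σ
      nlinarith
    have h6 : s.re ^ 2 ≤ 4 := by nlinarith
    have h7 : 0 ≤ σ ^ 2 := sq_nonneg _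
    nlinarith [sq_nonneg s.re]
  rw [h1, h2]
  have h5 : Real.exp (s.re * L) / ‖s‖ ≤ Real.exp (s.re * L) * 2 := by
    rw [div_le_iff₀ (by linarith)]
    have := Real.exp_pos (s.re * L)
    nlinarith
  have h6 : 0 ≤ ‖G s‖ := norm_nonneg _
  calc _ ≤ (Real.exp 2 * Real.exp (-(σ ^ 2 / 2) * s.im ^ 2)) * (Real.exp (s.re * L) * 2) *
        (B * (|s.im| + 3) ^ A) := by gcongr
    _ = _ := by ring

/-- bound of the smooth sum -/
lemma Sm_bound {b A : ℝ} (hb : 1 / 2 ≤ b) (hb1 : b < 1) (hA : 0 ≤ A) : ∃ K : ℝ, 0 ≤ K ∧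
    ∀ (f : ℕ → ℂ) (G : ℂ → ℂ) (B : ℝ), (∀ n, ‖f n‖ ≤ 1) → 1 ≤ B → DifferentiableOn ℂ G {s | b < s.re} →
    (∀ s : ℂ, 1 < s.re → G s = LSeries f s) →
    (∀ s : ℂ, b < s.re → s.re ≤ 2 → ‖G s‖ ≤ B * (|s.im| + 3) ^ A) →
    ∀ R : ℕ, 1 ≤ R → ∀ σ : ℝ, 0 < σ → σ ≤ 1 →
      ‖Sm f R σ‖ ≤ K * B * (R : ℝ) ^ ((1 + b) / 2) * (σ ^ (A + 1))⁻¹ := by
  have hKi : Integrable (fun u : ℝ => (|u| + 3) ^ A * Real.exp (-(1 / 2) * u ^ 2)) := by
    obtain ⟨C, hC, h⟩ := poly_gauss A (κ := 1 / 4) (by norm_num)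
    refine ((integrable_exp_neg_mul_sq (b := 1 / 4) (by norm_num)).const_mul C).mono' ?_
      (Eventually.of_forall fun u => ?_)
    · have : Continuous (fun u : ℝ => (|u| + 3) ^ A * Real.exp (-(1 / 2) * u ^ 2)) := by
        refine Continuous.mul ?_ (by fun_prop)
        exact Continuous.rpow_const (by fun_prop) (fun u => Or.inl (by positivity))
      exact this.aestronglyMeasurable
    · rw [Real.norm_eq_abs, abs_of_nonneg (by positivity)]
      calc (|u| + 3) ^ A * Real.exp (-(1 / 2) * u ^ 2) ≤ (C * Real.exp (1 / 4 * u ^ 2)) *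
            Real.exp (-(1 / 2) * u ^ 2) := mul_le_mul_of_nonneg_right (h u) (Real.exp_pos _).le
        _ = C * Real.exp (-(1 / 4) * u ^ 2) := by
          rw [mul_assoc, ← Real.exp_add]
          congr 2
          ring
  set KA : ℝ := ∫ u : ℝ, (|u| + 3) ^ A * Real.exp (-(1 / 2) * u ^ 2) with hKA
  have hKA0 : 0 ≤ KA := integral_nonneg fun u => by positivity
  refine ⟨Real.exp 2 * 2 * KA, by positivity, fun f G B hf hB hGd hGL hGb R hR σ hσ hσ1 => ?_⟩
  have hR0 : (0 : ℝ) < R := by exact_mod_cast hR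
  have hR1 : (1 : ℝ) ≤ R := by exact_mod_cast hR
  have hL : 0 ≤ Real.log R := Real.log_nonneg hR1
  set b' : ℝ := (1 + b) / 2 with hb'
  have hb'1 : b < b' := by rw [hb']; linarith
  have hb'2 : b' < 1 := by rw [hb']; linarith
  rw [Sm_line hf hGL hR hσ]
  have hσa : |σ| ≤ 1 := by rw [abs_of_pos hσ]; exact hσ1
  obtain ⟨C, hC, hCb⟩ := poly_gauss (A + 3 / 2) (κ := σ ^ 2 / 2) (by positivity)
  have hshift := contour_shift (H := HH G σ (Real.log R)) (a := b') (b := 2)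
    (B := Real.exp 2 * Real.exp (2 * Real.log R) * 2 * B * C) (by linarith)
    (fun s hs1 hs2 => by
      have hs0 : s ≠ 0 := by
        intro h
        rw [h] at hs1
        simp at hs1
        linarith
      have hGs : DifferentiableAt ℂ G s :=
        hGd.differentiableAt ((isOpen_lt continuous_const Complex.continuous_re).mem_nhds (by
          show b < s.re
          linarith))
      unfold HH
      refine DifferentiableAt.mul (DifferentiableAt.mul (by fun_prop) ?_) hGs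
      exact DifferentiableAt.div (by fun_prop) (by fun_prop) hs0)
    (fun s hs1 hs2 => by
      have h1 := norm_HH (L := Real.log R) (by linarith : 1 / 2 ≤ s.re) (hGb s (by linarith) hs2) hσa hs2
      refine h1.trans ?_
      have h2 : (|s.im| + 3) ^ A * Real.exp (-(σ ^ 2 / 2) * s.im ^ 2) ≤ C * (1 + |s.im|) ^ (-(3 / 2 : ℝ)) := by
        have h3 := hCb s.im
        have h4 : 0 < |s.im| + 3 := by positivity
        have h5 : (|s.im| + 3) ^ A = (|s.im| + 3) ^ (A + 3 / 2) * (|s.im| + 3) ^ (-(3 / 2 : ℝ)) := by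
          rw [← Real.rpow_add h4]
          congr 1
          ring
        have h6 : (|s.im| + 3) ^ (-(3 / 2 : ℝ)) ≤ (1 + |s.im|) ^ (-(3 / 2 : ℝ)) :=
          Real.rpow_le_rpow_of_nonpos (by positivity) (by linarith) (by norm_num)
        have h7 : Real.exp (σ ^ 2 / 2 * s.im ^ 2) * Real.exp (-(σ ^ 2 / 2) * s.im ^ 2) = 1 := by
          rw [← Real.exp_add]
          have : σ ^ 2 / 2 * s.im ^ 2 + -(σ ^ 2 / 2) * s.im ^ 2 = 0 := by ring
          rw [this, Real.exp_zero]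
        calc _ = (|s.im| + 3) ^ (A + 3 / 2) * ((|s.im| + 3) ^ (-(3 / 2 : ℝ)) *
              Real.exp (-(σ ^ 2 / 2) * s.im ^ 2)) := by rw [h5]; ring
          _ ≤ (C * Real.exp (σ ^ 2 / 2 * s.im ^ 2)) * ((|s.im| + 3) ^ (-(3 / 2 : ℝ)) *
              Real.exp (-(σ ^ 2 / 2) * s.im ^ 2)) := mul_le_mul_of_nonneg_right h3 (by positivity)
          _ = C * (|s.im| + 3) ^ (-(3 / 2 : ℝ)) *
              (Real.exp (σ ^ 2 / 2 * s.im ^ 2) * Real.exp (-(σ ^ 2 / 2) * s.im ^ 2)) := by ring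
          _ = C * (|s.im| + 3) ^ (-(3 / 2 : ℝ)) := by rw [h7, mul_one]
          _ ≤ _ := mul_le_mul_of_nonneg_left h6 hC.le
      have h8 : Real.exp (s.re * Real.log R) ≤ Real.exp (2 * Real.log R) := by
        apply Real.exp_le_exp.2
        exact mul_le_mul_of_nonneg_right hs2 hL
      calc _ ≤ Real.exp 2 * Real.exp (2 * Real.log R) * 2 * B * (C * (1 + |s.im|) ^ (-(3 / 2 : ℝ))) := by
            gcongr
        _ = _ := by ring)
  rw [← hshift, norm_mul]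
  have hpi : ‖((2 : ℂ) * Real.pi)⁻¹‖ ≤ 1 := by
    rw [norm_inv, norm_mul, Complex.norm_real, Real.norm_eq_abs, abs_of_pos Real.pi_pos]
    simp only [Complex.norm_ofNat]
    apply inv_le_one_of_one_le₀
    linarith [Real.pi_gt_three]
  have hRb : Real.exp (b' * Real.log R) = (R : ℝ) ^ b' := by
    rw [Real.rpow_def_of_pos hR0, mul_comm]
  -- the integral on the line
  have hpt : ∀ t : ℝ, ‖HH G σ (Real.log R) ((b' : ℂ) + t * Complex.I)‖ ≤
      (Real.exp 2 * (R : ℝ) ^ b' * 2 * B * (σ ^ A)⁻¹) * ((|σ * t| + 3) ^ A * Real.exp (-(1 / 2) * (σ * t) ^ 2)) := by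
    intro t
    have hre : ((b' : ℂ) + t * Complex.I).re = b' := by simp
    have him : ((b' : ℂ) + t * Complex.I).im = t := by simp
    have h1 := norm_HH (G := G) (σ := σ) (L := Real.log R) (B := B) (A := A) (s := (b' : ℂ) + t * Complex.I)
      (by rw [hre]; linarith) (hGb _ (by rw [hre]; exact hb'1) (by rw [hre]; linarith)) hσa
      (by rw [hre]; linarith)
    rw [hre, him, hRb] at h1
    refine h1.trans ?_
    have h2 : (|t| + 3) ^ A ≤ (σ ^ A)⁻¹ * (|σ * t| + 3) ^ A := by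
      rw [← Real.inv_rpow hσ.le, ← Real.mul_rpow (by positivity) (by positivity)]
      apply Real.rpow_le_rpow (by positivity) _ hA
      rw [abs_mul, abs_of_pos hσ]
      have h3 : σ⁻¹ * (σ * |t| + 3) = |t| + 3 * σ⁻¹ := by
        field_simp
      rw [h3]
      have : 1 ≤ σ⁻¹ := (one_le_inv₀ hσ).2 hσ1
      linarith
    have h4 : Real.exp (-(σ ^ 2 / 2) * t ^ 2) = Real.exp (-(1 / 2) * (σ * t) ^ 2) := by
      congr 1
      ring
    rw [h4]
    calc _ ≤ Real.exp 2 * (R : ℝ) ^ b' * 2 * B * (((σ ^ A)⁻¹ * (|σ * t| + 3) ^ A) *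
          Real.exp (-(1 / 2) * (σ * t) ^ 2)) := by gcongr
      _ = _ := by ring
  have hgi : Integrable (fun t : ℝ => (|σ * t| + 3) ^ A * Real.exp (-(1 / 2) * (σ * t) ^ 2)) :=
    hKi.comp_mul_left' hσ.ne'
  have hval : ∫ t : ℝ, (|σ * t| + 3) ^ A * Real.exp (-(1 / 2) * (σ * t) ^ 2) = σ⁻¹ * KA := by
    have := Measure.integral_comp_mul_left (fun u : ℝ => (|u| + 3) ^ A * Real.exp (-(1 / 2) * u ^ 2)) σ
    rw [this, abs_of_pos (by positivity), smul_eq_mul]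
  have hfin := norm_integral_le_of_norm_le (hgi.const_mul (Real.exp 2 * (R : ℝ) ^ b' * 2 * B * (σ ^ A)⁻¹))
    (Eventually.of_forall hpt)
  rw [integral_const_mul, hval] at hfin
  have hσA : (σ ^ (A + 1))⁻¹ = (σ ^ A)⁻¹ * σ⁻¹ := by
    rw [Real.rpow_add hσ, Real.rpow_one, mul_inv]
  calc _ ≤ 1 * (Real.exp 2 * (R : ℝ) ^ b' * 2 * B * (σ ^ A)⁻¹ * (σ⁻¹ * KA)) :=
        mul_le_mul hpi hfin (norm_nonneg _) (by norm_num)
    _ = _ := by rw [hσA]; ring

theorem m2b : S_M2b := by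
  intro b A hb hb1 hA
  obtain ⟨K, hK, hSm⟩ := Sm_bound hb hb1 hA
  set η : ℝ := (1 - b) / (4 * (A + 1)) with hη
  have hA1 : 0 < A + 1 := by linarith
  have hη0 : 0 < η := by rw [hη]; exact div_pos (by linarith) (by linarith)
  have hη1 : η * (A + 1) = (1 - b) / 4 := by
    rw [hη]
    field_simp
  have hη2 : η ≤ (1 - b) / 4 := by
    have : η * 1 ≤ η * (A + 1) := mul_le_mul_of_nonneg_left (by linarith) hη0.le
    linarith
  set E : ℝ := ∫ u, Real.exp (2 * |u|) * ph u with hE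
  have hE0 : 0 ≤ E := integral_nonneg fun u => mul_nonneg (Real.exp_pos _).le (ph_nonneg u)
  refine ⟨η, hη0, K + E + 1, fun f G B hf hB hGd hGL hGb R hR => ?_⟩
  have hR0 : (0 : ℝ) < R := by exact_mod_cast hR
  have hR1 : (1 : ℝ) ≤ R := by exact_mod_cast hR
  have hσ : 0 < (R : ℝ) ^ (-η) := by positivity
  have hσ1 : (R : ℝ) ^ (-η) ≤ 1 := Real.rpow_le_one_of_one_le_of_nonpos hR1 (by linarith)
  have h1 := hSm f G B hf hB hGd hGL hGb R hR _ hσ hσ1
  have h2 := Sm_diff hf hR hσ hσ1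
  have e1 : (R : ℝ) ^ ((1 + b) / 2) * (((R : ℝ) ^ (-η)) ^ (A + 1))⁻¹ ≤ (R : ℝ) ^ (1 - η) := by
    rw [← Real.rpow_mul hR0.le, ← Real.rpow_neg hR0.le, ← Real.rpow_add hR0]
    apply Real.rpow_le_rpow_of_exponent_le hR1
    have : -(-η * (A + 1)) = (1 - b) / 4 := by
      rw [← hη1]
      ring
    rw [this]
    linarith
  have e2 : (R : ℝ) * (R : ℝ) ^ (-η) = (R : ℝ) ^ (1 - η) := by
    rw [sub_eq_add_neg, Real.rpow_add hR0, Real.rpow_one]
  have e3 : 1 ≤ (R : ℝ) ^ (1 - η) := Real.one_le_rpow hR1 (by linarith)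
  rw [e2] at h2
  have h3 : ‖Sm f R ((R : ℝ) ^ (-η))‖ ≤ K * B * (R : ℝ) ^ (1 - η) := by
    refine h1.trans ?_
    rw [mul_assoc]
    exact mul_le_mul_of_nonneg_left e1 (by positivity)
  have h4 : (R : ℝ) ^ (1 - η) * E ≤ E * B * (R : ℝ) ^ (1 - η) := by
    have : E * 1 ≤ E * B := mul_le_mul_of_nonneg_left hB hE0
    nlinarith
  have h5 : 1 ≤ B * (R : ℝ) ^ (1 - η) := by nlinarith
  calc _ ≤ _ := h2
    _ ≤ K * B * (R : ℝ) ^ (1 - η) + (E * B * (R : ℝ) ^ (1 - η) + B * (R : ℝ) ^ (1 - η)) := by linarith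
    _ = _ := by ring

end Pool.Agent.T9h53.LZ
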