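import Pool.Agent.T9h53.LZ.M2a
import Pool.Agent.T9h53.LZ.M2b
import Pool.Agent.T9h54.LZ.Spec2

/-!
# (M2): power saving for `∑ μ(n) χ(n)` from a zero-free half plane
-/

set_option autoImplicit false

namespace Pool.Agent.T9h53.LZ

open Finset Pool.Agent.T9h54.LZ

theorem m2 : S_M2 := by
  intro a ha hZ
  obtain ⟨b, A, C, hb, hb1, hA, hC, hG⟩ := m2a a ha hZ
  obtain ⟨δ, hδ, D, hD⟩ := m2b b A hb hb1 hA
  refine ⟨δ, hδ, D * (C + 1), A, fun q _ χ R hR => ?_⟩
  obtain ⟨G, hGd, hGL, hGb⟩ := hG q χ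
  have hq : (1 : ℝ) ≤ q := by exact_mod_cast NeZero.one_le
  have hqA : 1 ≤ (q : ℝ) ^ A := Real.one_le_rpow hq hA
  have h1 := hD (fun n => ((ArithmeticFunction.moebius n : ℤ) : ℂ) * χ (n : ZMod q)) G ((C + 1) * (q : ℝ) ^ A)
    (fun n => by
      rw [norm_mul]
      have h1 : ‖(((ArithmeticFunction.moebius n : ℤ) : ℂ))‖ ≤ 1 := by
        rw [Complex.norm_intCast]
        exact_mod_cast ArithmeticFunction.abs_moebius_le_one
      have h2 := DirichletCharacter.norm_le_one χ (n : ZMod q)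
      have h3 := norm_nonneg (χ (n : ZMod q))
      calc _ ≤ (1 : ℝ) * 1 := mul_le_mul h1 h2 h3 (by norm_num)
        _ = 1 := one_mul 1)
    (by nlinarith) hGd hGL
    (fun s hs1 hs2 => by
      refine (hGb s hs1 hs2).trans ?_
      have h4 : 0 ≤ (|s.im| + 3) ^ A := by positivity
      have h5 : C * (q : ℝ) ^ A ≤ (C + 1) * (q : ℝ) ^ A := by nlinarith
      exact mul_le_mul_of_nonneg_right h5 h4) R hR
  refine h1.trans (le_of_eq ?_)
  ring

end Pool.Agent.T9h53.LZ
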