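import Pool.Agent.T9h53.LZ.Spec

/-!
# Shifting a vertical line, Gaussian integrals
-/

set_option autoImplicit false

namespace Pool.Agent.T9h53.LZ

open MeasureTheory Filter Topology Set

lemma integrable_decay : Integrable (fun y : ℝ => (1 + |y|) ^ (-(3 / 2 : ℝ))) := by
  have := integrable_one_add_norm (E := ℝ) (μ := volume) (r := 3 / 2) (by simp; norm_num)
  simpa using this

lemma vertical_integrable {H : ℂ → ℂ} {a B : ℝ}
    (hd : ∀ s : ℂ, s.re = a → ContinuousAt H s)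
    (hB : ∀ s : ℂ, s.re = a → ‖H s‖ ≤ B * (1 + |s.im|) ^ (-(3 / 2 : ℝ))) :
    Integrable (fun y : ℝ => H (a + y * Complex.I)) := by
  have hc : Continuous (fun y : ℝ => H (a + y * Complex.I)) := by
    rw [continuous_iff_continuousAt]
    intro y
    have h1 : ContinuousAt H ((a : ℂ) + y * Complex.I) := hd _ (by simp)
    exact ContinuousAt.comp (f := fun y : ℝ => (a : ℂ) + y * Complex.I) h1 (by fun_prop)
  refine (integrable_decay.const_mul B).mono' hc.aestronglyMeasurable (Eventually.of_forall fun y => ?_)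
  have := hB (a + y * Complex.I) (by simp)
  simpa using this

lemma contour_shift {H : ℂ → ℂ} {a b B : ℝ} (hab : a ≤ b)
    (hd : ∀ s : ℂ, a ≤ s.re → s.re ≤ b → DifferentiableAt ℂ H s)
    (hB : ∀ s : ℂ, a ≤ s.re → s.re ≤ b → ‖H s‖ ≤ B * (1 + |s.im|) ^ (-(3 / 2 : ℝ))) :
    ∫ y : ℝ, H (a + y * Complex.I) = ∫ y : ℝ, H (b + y * Complex.I) := by
  have ia : Integrable (fun y : ℝ => H (a + y * Complex.I)) :=
    vertical_integrable (fun s hs => (hd s hs.ge (hs.le.trans hab)).continuousAt)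
      (fun s hs => hB s hs.ge (hs.le.trans hab))
  have ib : Integrable (fun y : ℝ => H (b + y * Complex.I)) :=
    vertical_integrable (fun s hs => (hd s (hab.trans hs.ge) hs.le).continuousAt)
      (fun s hs => hB s (hab.trans hs.ge) hs.le)
  -- rectangles
  have hrect : ∀ T : ℝ, 0 < T →
      (∫ x in a..b, H (x + (-T : ℝ) * Complex.I)) - (∫ x in a..b, H (x + (T : ℝ) * Complex.I)) +
        Complex.I • (∫ y in (-T)..T, H (b + y * Complex.I)) -
        Complex.I • (∫ y in (-T)..T, H (a + y * Complex.I)) = 0 := by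
    intro T hT
    have := Complex.integral_boundary_rect_eq_zero_of_differentiableOn H ⟨a, -T⟩ ⟨b, T⟩ ?_
    · simpa using this
    · intro s hs
      rw [Complex.mem_reProdIm] at hs
      simp only at hs
      rw [uIcc_of_le hab] at hs
      exact (hd s hs.1.1 hs.1.2).differentiableWithinAt
  have hB0 : 0 ≤ B := by
    have := (norm_nonneg _).trans (hB a (by simp) (by simpa using hab))
    simpa using this
  have hhor : ∀ T : ℝ, ‖∫ x in a..b, H (x + (T : ℝ) * Complex.I)‖ ≤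
      B * (1 + |T|) ^ (-(3 / 2 : ℝ)) * |b - a| := by
    intro T
    refine intervalIntegral.norm_integral_le_of_norm_le_const fun x hx => ?_
    rw [uIoc_of_le hab] at hx
    have := hB (x + (T : ℝ) * Complex.I) (by simpa using hx.1.le) (by simpa using hx.2)
    simpa using this
  have hlim0 : Tendsto (fun T : ℝ => B * (1 + |T|) ^ (-(3 / 2 : ℝ)) * |b - a|) atTop (𝓝 0) := by
    have h1 : Tendsto (fun T : ℝ => (1 + |T|)) atTop atTop :=
      tendsto_atTop_add_const_left _ _ tendsto_abs_atTop_atTop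
    have h2 := (tendsto_rpow_neg_atTop (y := 3 / 2) (by norm_num)).comp h1
    have h3 := (h2.const_mul B).mul_const |b - a|
    simpa using h3
  have hl1 : Tendsto (fun T : ℝ => ∫ x in a..b, H (x + (T : ℝ) * Complex.I)) atTop (𝓝 0) :=
    squeeze_zero_norm hhor hlim0
  have hl2 : Tendsto (fun T : ℝ => ∫ x in a..b, H (x + (-T : ℝ) * Complex.I)) atTop (𝓝 0) := by
    refine squeeze_zero_norm (a := fun T : ℝ => B * (1 + |T|) ^ (-(3 / 2 : ℝ)) * |b - a|) ?_ hlim0
    intro T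
    have := hhor (-T)
    rw [abs_neg] at this
    exact this
  have hl3 := intervalIntegral_tendsto_integral ib tendsto_neg_atTop_atBot tendsto_id
  have hl4 := intervalIntegral_tendsto_integral ia tendsto_neg_atTop_atBot tendsto_id
  have hfin := ((hl2.sub hl1).add (hl3.const_smul Complex.I)).sub (hl4.const_smul Complex.I)
  have hzero : Tendsto (fun _ : ℝ => (0:ℂ)) atTop (𝓝 0) := tendsto_const_nhds
  have huniq := tendsto_nhds_unique (hfin.congr' ?_) hzero
  · rw [sub_zero, zero_add, ← smul_sub, smul_eq_mul] at huniq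
    have := (mul_eq_zero.mp huniq).resolve_left Complex.I_ne_zero
    exact (sub_eq_zero.mp this).symm
  · filter_upwards [eventually_gt_atTop 0] with T hT
    simpa using hrect T hT


/-- the standard Gaussian density -/
noncomputable def ph (u : ℝ) : ℝ := (Real.sqrt (2 * Real.pi))⁻¹ * Real.exp (-(u ^ 2 / 2))

lemma ph_nonneg (u : ℝ) : 0 ≤ ph u := by unfold ph; positivity

lemma ph_cont : Continuous ph := by unfold ph; fun_prop

/-- polynomials against Gaussians -/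
lemma poly_gauss (m : ℝ) {κ : ℝ} (hκ : 0 < κ) : ∃ C : ℝ, 0 < C ∧ ∀ t : ℝ,
    (|t| + 3) ^ m ≤ C * Real.exp (κ * t ^ 2) := by
  obtain ⟨k, hk⟩ := exists_nat_ge m
  set K : ℝ := 2 / κ + 18 with hK
  have hK0 : 0 < K := by positivity
  refine ⟨K ^ k * k.factorial * Real.exp 1, by positivity, fun t => ?_⟩
  have ht := abs_nonneg t
  have h1 : (|t| + 3) ^ m ≤ (|t| + 3) ^ (2 * k) := by
    rw [← Real.rpow_natCast]
    apply Real.rpow_le_rpow_of_exponent_le (by linarith)
    push_cast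
    have : (0 : ℝ) ≤ k := Nat.cast_nonneg k
    linarith
  have h2 : (|t| + 3) ^ 2 ≤ K * (κ * t ^ 2 + 1) := by
    have h3 : (|t| + 3) ^ 2 ≤ 2 * t ^ 2 + 18 := by
      have := sq_abs t
      nlinarith [sq_nonneg (|t| - 3)]
    refine h3.trans ?_
    rw [hK]
    have h4 : (2 / κ + 18) * (κ * t ^ 2 + 1) = 2 * t ^ 2 + 18 + (2 / κ + 18 * (κ * t ^ 2)) := by
      field_simp
      ring
    rw [h4]
    have : 0 ≤ 2 / κ + 18 * (κ * t ^ 2) := by positivity
    linarith
  have h5 : 0 ≤ κ * t ^ 2 + 1 := by positivity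
  have h6 := Real.pow_div_factorial_le_exp (κ * t ^ 2 + 1) h5 k
  rw [div_le_iff₀ (by positivity)] at h6
  calc (|t| + 3) ^ m ≤ ((|t| + 3) ^ 2) ^ k := by rw [← pow_mul]; exact h1
    _ ≤ (K * (κ * t ^ 2 + 1)) ^ k := pow_le_pow_left₀ (by positivity) h2 k
    _ = K ^ k * (κ * t ^ 2 + 1) ^ k := mul_pow _ _ _
    _ ≤ K ^ k * (Real.exp (κ * t ^ 2 + 1) * k.factorial) := by gcongr
    _ = _ := by rw [Real.exp_add]; ring

lemma ph_int : Integrable ph := by
  have h := (integrable_exp_neg_mul_sq (b := 1 / 2) (by norm_num)).const_mul (Real.sqrt (2 * Real.pi))⁻¹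
  refine h.congr (Eventually.of_forall fun u => ?_)
  simp only [ph]
  congr 2
  ring

lemma ph_integral : ∫ u, ph u = 1 := by
  have h : ∫ u : ℝ, Real.exp (-(1 / 2) * u ^ 2) = Real.sqrt (Real.pi / (1 / 2)) := integral_gaussian (1 / 2)
  unfold ph
  rw [integral_const_mul]
  have e : (fun u : ℝ => Real.exp (-(u ^ 2 / 2))) = fun u : ℝ => Real.exp (-(1 / 2) * u ^ 2) := by
    funext u
    congr 1
    ring
  rw [e, h]
  have : Real.pi / (1 / 2) = 2 * Real.pi := by ring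
  rw [this]
  exact inv_mul_cancel₀ (by positivity)

/-- `∫ |u| e^|u| dφ(u) < ∞` -/
lemma exp_ph_int (a : ℝ) : Integrable (fun u => Real.exp (a * |u|) * ph u) := by
  have h := (integrable_exp_neg_mul_sq (b := 1 / 4) (by norm_num)).const_mul
    ((Real.sqrt (2 * Real.pi))⁻¹ * Real.exp (a ^ 2))
  refine h.mono' ?_ (Eventually.of_forall fun u => ?_)
  · have : Continuous (fun u => Real.exp (a * |u|) * ph u) := by
      have := ph_cont
      fun_prop
    exact this.aestronglyMeasurable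
  · rw [Real.norm_eq_abs, abs_of_nonneg (mul_nonneg (Real.exp_pos _).le (ph_nonneg u))]
    unfold ph
    have h1 : Real.exp (a * |u|) * Real.exp (-(u ^ 2 / 2)) ≤ Real.exp (a ^ 2) * Real.exp (-(1 / 4) * u ^ 2) := by
      rw [← Real.exp_add, ← Real.exp_add]
      apply Real.exp_le_exp.2
      have := sq_abs u
      nlinarith [sq_nonneg (a - |u| / 2)]
    calc _ = (Real.sqrt (2 * Real.pi))⁻¹ * (Real.exp (a * |u|) * Real.exp (-(u ^ 2 / 2))) := by ring
      _ ≤ (Real.sqrt (2 * Real.pi))⁻¹ * (Real.exp (a ^ 2) * Real.exp (-(1 / 4) * u ^ 2)) := by gcongr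
      _ = _ := by ring

/-- the Gaussian as a vertical integral -/
lemma gauss_line {σ c : ℝ} (hσ : 0 < σ) (u : ℝ) :
    ∫ t : ℝ, Complex.exp (σ ^ 2 * ((c : ℂ) + t * Complex.I) ^ 2 / 2 + ((c : ℂ) + t * Complex.I) * σ * u) * σ =
      2 * Real.pi * ph u := by
  have hb : (-(σ ^ 2 / 2 : ℝ) : ℂ).re < 0 := by
    rw [Complex.neg_re, Complex.ofReal_re]
    have : 0 < σ ^ 2 / 2 := by positivity
    linarith
  have h := integral_cexp_quadratic (b := (-(σ ^ 2 / 2 : ℝ) : ℂ)) hb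
    ((σ ^ 2 * c + σ * u : ℝ) * Complex.I) ((σ ^ 2 * c ^ 2 / 2 + c * σ * u : ℝ) : ℂ)
  rw [integral_mul_const]
  have e1 : (fun t : ℝ => Complex.exp (σ ^ 2 * ((c : ℂ) + t * Complex.I) ^ 2 / 2 +
      ((c : ℂ) + t * Complex.I) * σ * u)) = fun t : ℝ => Complex.exp ((-(σ ^ 2 / 2 : ℝ) : ℂ) * t ^ 2 +
      (((σ ^ 2 * c + σ * u : ℝ) : ℂ) * Complex.I) * t + ((σ ^ 2 * c ^ 2 / 2 + c * σ * u : ℝ) : ℂ)) := by
    funext t
    congr 1
    push_cast
    ring_nf
    rw [Complex.I_sq]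
    ring
  rw [e1, h]
  have hs : (σ : ℂ) ≠ 0 := by exact_mod_cast hσ.ne'
  have e2 : ((σ ^ 2 * c ^ 2 / 2 + c * σ * u : ℝ) : ℂ) - (((σ ^ 2 * c + σ * u : ℝ) : ℂ) * Complex.I) ^ 2 /
      (4 * (-(σ ^ 2 / 2 : ℝ) : ℂ)) = ((-(u ^ 2 / 2) : ℝ) : ℂ) := by
    rw [mul_pow, Complex.I_sq]
    push_cast
    field_simp
    ring
  rw [e2]
  have e3 : (Real.pi : ℂ) / (-(-(σ ^ 2 / 2 : ℝ) : ℂ)) = ((2 * Real.pi / σ ^ 2 : ℝ) : ℂ) := by
    rw [neg_neg]
    push_cast
    field_simp
  rw [e3]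
  have e4 : (((2 * Real.pi / σ ^ 2 : ℝ) : ℂ)) ^ (1 / 2 : ℂ) = ((Real.sqrt (2 * Real.pi) / σ : ℝ) : ℂ) := by
    have : (1 / 2 : ℂ) = ((1 / 2 : ℝ) : ℂ) := by push_cast; rfl
    rw [this, ← Complex.ofReal_cpow (by positivity), ← Real.sqrt_eq_rpow, Real.sqrt_div (by positivity),
      Real.sqrt_sq hσ.le]
  rw [e4, ← Complex.ofReal_exp]
  have e5 : Real.sqrt (2 * Real.pi) / σ * Real.exp (-(u ^ 2 / 2)) * σ = 2 * Real.pi * ph u := by
    unfold ph
    have h1 : Real.sqrt (2 * Real.pi) * Real.sqrt (2 * Real.pi) = 2 * Real.pi :=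
      Real.mul_self_sqrt (by positivity)
    have h2 : Real.sqrt (2 * Real.pi) ≠ 0 := by positivity
    field_simp
    rw [sq, h1]
  exact_mod_cast e5

end Pool.Agent.T9h53.LZ
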