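import Pool.Agent.T9h53.LZ.Ga

/-!
# The smoothed summatory function as a vertical integral
-/

set_option autoImplicit false

namespace Pool.Agent.T9h53.LZ

open MeasureTheory Filter Topology Set

lemma norm_exp_sq (σ c t : ℝ) : ‖Complex.exp (σ ^ 2 * ((c : ℂ) + t * Complex.I) ^ 2 / 2)‖ =
    Real.exp (σ ^ 2 * c ^ 2 / 2) * Real.exp (-(σ ^ 2 / 2) * t ^ 2) := by
  rw [Complex.norm_exp, ← Real.exp_add]
  congr 1
  have : (σ : ℂ) ^ 2 * ((c : ℂ) + t * Complex.I) ^ 2 / 2 =
      ((σ ^ 2 * c ^ 2 / 2 + -(σ ^ 2 / 2) * t ^ 2 : ℝ) : ℂ) + ((σ ^ 2 * c * t : ℝ) : ℂ) * Complex.I := by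
    push_cast
    ring_nf
    rw [Complex.I_sq]
    ring
  rw [this, Complex.add_re, Complex.ofReal_re, Complex.re_ofReal_mul, Complex.I_re]
  ring

/-- the Gaussian distribution function as a vertical integral -/
lemma Phi_eq {σ c : ℝ} (hσ : 0 < σ) (hc : 0 < c) (a : ℝ) :
    ((∫ u in Iic (a / σ), ph u : ℝ) : ℂ) = ((2 : ℂ) * Real.pi)⁻¹ *
      ∫ t : ℝ, Complex.exp (σ ^ 2 * ((c : ℂ) + t * Complex.I) ^ 2 / 2) *
        (Complex.exp (((c : ℂ) + t * Complex.I) * a) / ((c : ℂ) + t * Complex.I)) := by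
  have hpi : (2 * Real.pi : ℂ) ≠ 0 := by
    have := Real.pi_ne_zero
    simp
  rw [eq_inv_mul_iff_mul_eq₀ hpi, ← integral_complex_ofReal, ← integral_const_mul]
  have e1 : (fun u : ℝ => (2 * Real.pi : ℂ) * (ph u : ℂ)) = fun u : ℝ => ∫ t : ℝ,
      Complex.exp (σ ^ 2 * ((c : ℂ) + t * Complex.I) ^ 2 / 2 + ((c : ℂ) + t * Complex.I) * σ * u) * σ := by
    funext u
    rw [gauss_line hσ]
  rw [e1, integral_integral_swap]
  · congr 1
    funext t
    have hs : 0 < ((c : ℂ) + t * Complex.I).re := by simpa using hc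
    have hs0 : ((c : ℂ) + t * Complex.I) ≠ 0 := by
      intro h
      rw [h] at hs
      simp at hs
    have hσc : (σ : ℂ) ≠ 0 := by exact_mod_cast hσ.ne'
    have e2 : (fun u : ℝ => Complex.exp (σ ^ 2 * ((c : ℂ) + t * Complex.I) ^ 2 / 2 +
        ((c : ℂ) + t * Complex.I) * σ * u) * σ) = fun u : ℝ =>
        (Complex.exp (σ ^ 2 * ((c : ℂ) + t * Complex.I) ^ 2 / 2) * σ) *
          Complex.exp ((((c : ℂ) + t * Complex.I) * σ) * u) := by
      funext u
      rw [Complex.exp_add]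
      ring
    rw [e2, integral_const_mul, integral_exp_mul_complex_Iic (a := ((c : ℂ) + t * Complex.I) * σ) (by
      have : (((c : ℂ) + t * Complex.I) * σ).re = c * σ := by simp
      rw [this]
      positivity)]
    push_cast
    have e3 : ((c : ℂ) + t * Complex.I) * σ * (a / σ) = ((c : ℂ) + t * Complex.I) * a := by
      field_simp
    rw [e3]
    field_simp
  · have hf : Integrable (fun u : ℝ => Real.exp ((c * σ) * u)) (volume.restrict (Iic (a / σ))) := by
      exact integrableOn_exp_mul_Iic (by positivity) _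
    have hg : Integrable (fun t : ℝ => (Real.exp (σ ^ 2 * c ^ 2 / 2) * σ) * Real.exp (-(σ ^ 2 / 2) * t ^ 2)) :=
      (integrable_exp_neg_mul_sq (by positivity)).const_mul _
    refine (hf.mul_prod hg).mono' ?_ (Eventually.of_forall fun z => ?_)
    · have : Continuous (Function.uncurry fun (u t : ℝ) => Complex.exp (σ ^ 2 * ((c : ℂ) + t * Complex.I) ^ 2 / 2 +
        ((c : ℂ) + t * Complex.I) * σ * u) * σ) := by
        unfold Function.uncurry
        fun_prop
      exact this.aestronglyMeasurable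
    · simp only [Function.uncurry]
      rw [norm_mul, Complex.exp_add, norm_mul, norm_exp_sq, Complex.norm_real, Real.norm_eq_abs,
        abs_of_pos hσ, Complex.norm_exp]
      have : (((c : ℂ) + z.2 * Complex.I) * σ * z.1).re = c * σ * z.1 := by simp
      rw [this]
      apply le_of_eq
      ring

/-- the smoothed summatory function -/
noncomputable def Sm (f : ℕ → ℂ) (R : ℕ) (σ : ℝ) : ℂ :=
  ∫ u : ℝ, (ph u : ℂ) * ∑ n ∈ Finset.Icc 1 ⌊(R : ℝ) * Real.exp (-(σ * u))⌋₊, f n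

lemma mem_iff {R n : ℕ} (hR : 1 ≤ R) (hn : n ≠ 0) {σ u : ℝ} (hσ : 0 < σ) :
    n ∈ Finset.Icc 1 ⌊(R : ℝ) * Real.exp (-(σ * u))⌋₊ ↔ u ∈ Iic ((Real.log R - Real.log n) / σ) := by
  have hR0 : (0 : ℝ) < R := by exact_mod_cast hR
  have hn0 : (0 : ℝ) < n := by exact_mod_cast Nat.pos_of_ne_zero hn
  rw [Finset.mem_Icc, Nat.le_floor_iff (by positivity), mem_Iic, le_div_iff₀ hσ]
  have h1 : (n : ℝ) ≤ R * Real.exp (-(σ * u)) ↔ Real.log n ≤ Real.log R - σ * u := by
    rw [← Real.log_le_log_iff hn0 (by positivity), Real.log_mul hR0.ne' (Real.exp_pos _).ne', Real.log_exp]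
    rfl
  rw [h1]
  constructor
  · rintro ⟨_, h⟩
    linarith
  · intro h
    exact ⟨Nat.pos_of_ne_zero hn, by linarith⟩

/-- `Sm` as a sum -/
lemma Sm_eq {f : ℕ → ℂ} (hf : ∀ n, ‖f n‖ ≤ 1) {R : ℕ} (hR : 1 ≤ R) {σ : ℝ} (hσ : 0 < σ) :
    Sm f R σ = ∑' n : ℕ, (if n = 0 then 0 else f n) *
      ((∫ u in Iic ((Real.log R - Real.log n) / σ), ph u : ℝ) : ℂ) := by
  have hR0 : (0 : ℝ) < R := by exact_mod_cast hR
  set F : ℕ → ℝ → ℂ := fun n u => (if n = 0 then 0 else f n) *
    ((Iic ((Real.log R - Real.log n) / σ)).indicator (fun u => (ph u : ℂ)) u) with hF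
  have hphc : Integrable (fun u => (ph u : ℂ)) := ph_int.ofReal
  have hint : ∀ n, Integrable (F n) := fun n => (hphc.indicator measurableSet_Iic).const_mul _
  have hK := exp_ph_int (2 * σ)
  have hbd : ∀ n : ℕ, ∫ u, ‖F n u‖ ≤ (R : ℝ) ^ 2 * (∫ u, Real.exp (2 * σ * |u|) * ph u) * (1 / (n : ℝ) ^ 2) := by
    intro n
    by_cases hn : n = 0
    · subst hn
      simp [hF]
    · have hn0 : (0 : ℝ) < n := by exact_mod_cast Nat.pos_of_ne_zero hn
      have h1 : ∀ u, ‖F n u‖ ≤ (R : ℝ) ^ 2 * (1 / (n : ℝ) ^ 2) * (Real.exp (2 * σ * |u|) * ph u) := by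
        intro u
        simp only [hF, if_neg hn, norm_mul]
        by_cases hu : u ∈ Iic ((Real.log R - Real.log n) / σ)
        · rw [indicator_of_mem hu, Complex.norm_real, Real.norm_eq_abs, abs_of_nonneg (ph_nonneg u)]
          have hu' : u * σ ≤ Real.log R - Real.log n := by
            rwa [mem_Iic, le_div_iff₀ hσ] at hu
          have h2 : 1 ≤ (R : ℝ) ^ 2 * (1 / (n : ℝ) ^ 2) * Real.exp (2 * σ * |u|) := by
            have h3 : (n : ℝ) ≤ R * Real.exp (σ * |u|) := by
              rw [← Real.log_le_log_iff hn0 (by positivity), Real.log_mul hR0.ne' (Real.exp_pos _).ne',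
                Real.log_exp]
              have := neg_abs_le u
              nlinarith
            have h4 : (n : ℝ) ^ 2 ≤ (R * Real.exp (σ * |u|)) ^ 2 := pow_le_pow_left₀ hn0.le h3 2
            have h5 : Real.exp (2 * σ * |u|) = Real.exp (σ * |u|) ^ 2 := by
              rw [← Real.exp_nat_mul]
              congr 1
              push_cast
              ring
            rw [h5]
            have h6 : (R : ℝ) ^ 2 * (1 / (n : ℝ) ^ 2) * Real.exp (σ * |u|) ^ 2 =
                (R * Real.exp (σ * |u|)) ^ 2 / (n : ℝ) ^ 2 := by ring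
            rw [h6, le_div_iff₀ (by positivity)]
            linarith
          calc ‖f n‖ * ph u ≤ 1 * ph u := mul_le_mul_of_nonneg_right (hf n) (ph_nonneg u)
            _ ≤ ((R : ℝ) ^ 2 * (1 / (n : ℝ) ^ 2) * Real.exp (2 * σ * |u|)) * ph u :=
              mul_le_mul_of_nonneg_right h2 (ph_nonneg u)
            _ = _ := by ring
        · rw [indicator_of_notMem hu, norm_zero, mul_zero]
          have := ph_nonneg u
          positivity
      calc ∫ u, ‖F n u‖ ≤ ∫ u, (R : ℝ) ^ 2 * (1 / (n : ℝ) ^ 2) * (Real.exp (2 * σ * |u|) * ph u) :=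
            integral_mono (hint n).norm (hK.const_mul _) h1
        _ = _ := by rw [integral_const_mul]; ring
  have hsum : Summable fun n => ∫ u, ‖F n u‖ := by
    refine Summable.of_nonneg_of_le (fun n => integral_nonneg fun u => norm_nonneg _) hbd ?_
    exact (Real.summable_one_div_nat_pow.2 (by norm_num)).mul_left _
  have key := integral_tsum_of_summable_integral_norm hint hsum
  have e1 : ∀ n, ∫ u, F n u = (if n = 0 then 0 else f n) *
      ((∫ u in Iic ((Real.log R - Real.log n) / σ), ph u : ℝ) : ℂ) := by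
    intro n
    simp only [hF]
    rw [integral_const_mul, integral_indicator measurableSet_Iic, integral_complex_ofReal]
  have e2 : ∀ u, ∑' n, F n u = (ph u : ℂ) * ∑ n ∈ Finset.Icc 1 ⌊(R : ℝ) * Real.exp (-(σ * u))⌋₊, f n := by
    intro u
    rw [tsum_eq_sum (s := Finset.Icc 1 ⌊(R : ℝ) * Real.exp (-(σ * u))⌋₊), Finset.mul_sum]
    · refine Finset.sum_congr rfl fun n hn => ?_
      have hn0 : n ≠ 0 := by
        rw [Finset.mem_Icc] at hn
        omega
      have := (mem_iff hR hn0 hσ).1 hn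
      simp only [hF, if_neg hn0]
      rw [indicator_of_mem this]
      ring
    · intro n hn
      by_cases hn0 : n = 0
      · simp [hF, hn0]
      · have : u ∉ Iic ((Real.log R - Real.log n) / σ) := fun h => hn ((mem_iff hR hn0 hσ).2 h)
        simp only [hF]
        rw [indicator_of_notMem this, mul_zero]
  unfold Sm
  simp_rw [← e2, ← e1]
  exact key.symm

/-- the shape of the integrand -/
noncomputable def HH (G : ℂ → ℂ) (σ L : ℝ) (s : ℂ) : ℂ :=
  Complex.exp (σ ^ 2 * s ^ 2 / 2) * (Complex.exp (s * L) / s) * G s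

lemma Sm_line {f : ℕ → ℂ} (hf : ∀ n, ‖f n‖ ≤ 1) {G : ℂ → ℂ}
    (hG : ∀ s : ℂ, 1 < s.re → G s = LSeries f s) {R : ℕ} (hR : 1 ≤ R) {σ : ℝ} (hσ : 0 < σ) :
    Sm f R σ = ((2 : ℂ) * Real.pi)⁻¹ * ∫ t : ℝ, HH G σ (Real.log R) (((2 : ℝ) : ℂ) + t * Complex.I) := by
  have hR0 : (0 : ℝ) < R := by exact_mod_cast hR
  rw [Sm_eq hf hR hσ]
  set F : ℕ → ℝ → ℂ := fun n t => Complex.exp (σ ^ 2 * (((2 : ℝ) : ℂ) + t * Complex.I) ^ 2 / 2) *
    (Complex.exp ((((2 : ℝ) : ℂ) + t * Complex.I) * Real.log R) / (((2 : ℝ) : ℂ) + t * Complex.I)) *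
      LSeries.term f (((2 : ℝ) : ℂ) + t * Complex.I) n with hF
  have hs0 : ∀ t : ℝ, (((2 : ℝ) : ℂ) + t * Complex.I) ≠ 0 := by
    intro t h
    have := congrArg Complex.re h
    simp at this
  have hn1 : ∀ t : ℝ, 2 ≤ ‖(((2 : ℝ) : ℂ) + t * Complex.I)‖ := by
    intro t
    have := Complex.abs_re_le_norm (((2 : ℝ) : ℂ) + t * Complex.I)
    simpa using this
  have hterm : ∀ (n : ℕ) (t : ℝ), ‖LSeries.term f (((2 : ℝ) : ℂ) + t * Complex.I) n‖ ≤ 1 / (n : ℝ) ^ 2 := by
    intro n t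
    by_cases hn : n = 0
    · subst hn
      simp
    · rw [LSeries.norm_term_eq]
      simp only [if_neg hn]
      have : (((2 : ℝ) : ℂ) + t * Complex.I).re = 2 := by simp
      rw [this]
      have hn0 : (0 : ℝ) < n := by exact_mod_cast Nat.pos_of_ne_zero hn
      have h2 : (n : ℝ) ^ (2 : ℝ) = (n : ℝ) ^ 2 := by norm_cast
      rw [h2]
      exact div_le_div_of_nonneg_right (hf n) (by positivity)
  have hFn : ∀ (n : ℕ) (t : ℝ), ‖F n t‖ ≤ (Real.exp (σ ^ 2 * 2 ^ 2 / 2) * (R : ℝ) ^ 2 * (1 / (n : ℝ) ^ 2)) *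
      Real.exp (-(σ ^ 2 / 2) * t ^ 2) := by
    intro n t
    simp only [hF]
    rw [norm_mul, norm_mul, norm_exp_sq, norm_div]
    have h1 : ‖Complex.exp ((((2 : ℝ) : ℂ) + t * Complex.I) * Real.log R)‖ = (R : ℝ) ^ 2 := by
      rw [Complex.norm_exp]
      have : ((((2 : ℝ) : ℂ) + t * Complex.I) * Real.log R).re = 2 * Real.log R := by
        rw [Complex.re_mul_ofReal]
        simp
      rw [this]
      have h3 : (2 : ℝ) * Real.log R = Real.log ((R : ℝ) ^ 2) := by rw [Real.log_pow]; push_cast; ring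
      rw [h3, Real.exp_log (by positivity)]
    rw [h1]
    have h2 : (R : ℝ) ^ 2 / ‖(((2 : ℝ) : ℂ) + t * Complex.I)‖ ≤ (R : ℝ) ^ 2 := by
      apply div_le_self (by positivity)
      linarith [hn1 t]
    calc _ ≤ Real.exp (σ ^ 2 * 2 ^ 2 / 2) * Real.exp (-(σ ^ 2 / 2) * t ^ 2) * (R : ℝ) ^ 2 *
          (1 / (n : ℝ) ^ 2) := by
          gcongr
          exact hterm n t
      _ = _ := by ring
  have hcont : ∀ n, Continuous (F n) := by
    intro n
    by_cases hn : n = 0
    · have : F n = fun _ => 0 := by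
        funext t
        simp [hF, hn]
      rw [this]
      exact continuous_const
    · have hn0 : (n : ℂ) ≠ 0 := by exact_mod_cast hn
      have e : F n = fun t : ℝ => Complex.exp (σ ^ 2 * (((2 : ℝ) : ℂ) + t * Complex.I) ^ 2 / 2) *
        (Complex.exp ((((2 : ℝ) : ℂ) + t * Complex.I) * Real.log R) / (((2 : ℝ) : ℂ) + t * Complex.I)) *
          (f n / Complex.exp (Complex.log n * (((2 : ℝ) : ℂ) + t * Complex.I))) := by
        funext t
        simp only [hF]
        rw [LSeries.term_of_ne_zero hn, Complex.cpow_def_of_ne_zero hn0]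
      rw [e]
      refine Continuous.mul (Continuous.mul (by fun_prop) (Continuous.div (by fun_prop) (by fun_prop) hs0)) ?_
      exact Continuous.div (by fun_prop) (by fun_prop) (fun t => Complex.exp_ne_zero _)
  have hgi : Integrable (fun t : ℝ => Real.exp (-(σ ^ 2 / 2) * t ^ 2)) :=
    integrable_exp_neg_mul_sq (by positivity)
  have hint : ∀ n, Integrable (F n) := fun n =>
    (hgi.const_mul _).mono' (hcont n).aestronglyMeasurable (Eventually.of_forall (hFn n))
  have hsum : Summable fun n => ∫ t, ‖F n t‖ := by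
    refine Summable.of_nonneg_of_le (fun n => integral_nonneg fun u => norm_nonneg _)
      (g := fun n => ∫ t, ‖F n t‖) (f := fun n : ℕ => (Real.exp (σ ^ 2 * 2 ^ 2 / 2) * (R : ℝ) ^ 2 *
        ∫ t : ℝ, Real.exp (-(σ ^ 2 / 2) * t ^ 2)) * (1 / (n : ℝ) ^ 2)) (fun n => ?_) ?_
    · calc ∫ t, ‖F n t‖ ≤ ∫ t : ℝ, (Real.exp (σ ^ 2 * 2 ^ 2 / 2) * (R : ℝ) ^ 2 * (1 / (n : ℝ) ^ 2)) *
            Real.exp (-(σ ^ 2 / 2) * t ^ 2) := integral_mono (hint n).norm (hgi.const_mul _) (hFn n)
        _ = _ := by rw [integral_const_mul]; ring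
    · exact (Real.summable_one_div_nat_pow.2 (by norm_num)).mul_left _
  have key := integral_tsum_of_summable_integral_norm hint hsum
  have e1 : ∀ n : ℕ, (if n = 0 then 0 else f n) *
      ((∫ u in Iic ((Real.log R - Real.log n) / σ), ph u : ℝ) : ℂ) = ((2 : ℂ) * Real.pi)⁻¹ * ∫ t, F n t := by
    intro n
    by_cases hn : n = 0
    · subst hn
      simp [hF]
    · have hn0 : (n : ℂ) ≠ 0 := by exact_mod_cast hn
      have hnr : (0 : ℝ) < n := by exact_mod_cast Nat.pos_of_ne_zero hn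
      rw [if_neg hn, Phi_eq hσ (c := 2) (by norm_num), mul_left_comm, ← integral_const_mul]
      congr 2
      funext t
      simp only [hF]
      rw [LSeries.term_of_ne_zero hn, Complex.cpow_def_of_ne_zero hn0, ← Complex.natCast_log]
      have h3 : Complex.exp ((((2 : ℝ) : ℂ) + t * Complex.I) * ((Real.log R - Real.log n : ℝ) : ℂ)) =
          Complex.exp ((((2 : ℝ) : ℂ) + t * Complex.I) * Real.log R) /
            Complex.exp ((Real.log n : ℂ) * (((2 : ℝ) : ℂ) + t * Complex.I)) := by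
        rw [← Complex.exp_sub]
        congr 1
        push_cast
        ring
      rw [h3]
      ring
  simp_rw [e1]
  rw [tsum_mul_left, key]
  congr 2
  funext t
  simp only [hF]
  rw [tsum_mul_left]
  unfold HH
  rw [hG _ (by simp)]
  rfl

end Pool.Agent.T9h53.LZ
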