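import Mathlib

/-!
# (M2), split in two pieces
-/

set_option autoImplicit false

namespace Pool.Agent.T9h53.LZ

open Finset

/-- (M2b) Tauberian half: power saving from polynomial growth left of `Re s = 1` -/
def S_M2b : Prop := ∀ b A : ℝ, 1 / 2 ≤ b → b < 1 → 0 ≤ A → ∃ δ : ℝ, 0 < δ ∧ ∃ C : ℝ,
  ∀ (f : ℕ → ℂ) (G : ℂ → ℂ) (B : ℝ), (∀ n, ‖f n‖ ≤ 1) → 1 ≤ B → DifferentiableOn ℂ G {s | b < s.re} →
    (∀ s : ℂ, 1 < s.re → G s = LSeries f s) →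
    (∀ s : ℂ, b < s.re → s.re ≤ 2 → ‖G s‖ ≤ B * (|s.im| + 3) ^ A) →
    ∀ R : ℕ, 1 ≤ R → ‖∑ n ∈ Finset.Icc 1 R, f n‖ ≤ C * B * (R : ℝ) ^ (1 - δ)

/-- (M2a) analytic half: the inverse of an L-function in a zero-free half plane -/
def S_M2a : Prop := ∀ a : ℝ, a < 1 → (∀ (q : ℕ) [NeZero q] (χ : DirichletCharacter ℂ q) (s : ℂ),
  a < s.re → s ≠ 1 → DirichletCharacter.LFunction χ s ≠ 0) →
  ∃ b A C : ℝ, 1 / 2 ≤ b ∧ b < 1 ∧ 0 ≤ A ∧ 0 ≤ C ∧ ∀ (q : ℕ) [NeZero q] (χ : DirichletCharacter ℂ q),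
    ∃ G : ℂ → ℂ, DifferentiableOn ℂ G {s | b < s.re} ∧
      (∀ s : ℂ, 1 < s.re → G s = LSeries (fun n => ((ArithmeticFunction.moebius n : ℤ) : ℂ) * χ (n : ZMod q)) s) ∧
      ∀ s : ℂ, b < s.re → s.re ≤ 2 → ‖G s‖ ≤ C * (q : ℝ) ^ A * (|s.im| + 3) ^ A

end Pool.Agent.T9h53.LZ
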