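import Pool.Agent.W66.LA
import Pool.Agent.T9h53.LZ.Spec

/-!
# (M2a): the inverse of a Dirichlet L-function in a zero-free half plane
-/

set_option autoImplicit false

namespace Pool.Agent.T9h53.LZ

open Complex Filter Topology Set Metric Finset
open Pool.Agent.W66 Pool.Agent.W66L

/-- lower bound in a disc without zeros -/
lemma inv_bound {g : ℂ → ℂ} {c : ℂ} {r r1 B : ℝ} (hr1 : 0 < r1)
    (h1r : r1 < r) (hB : 0 ≤ B)
    (hg : AnalyticOnNhd ℂ g (closedBall c r)) (hg0 : ∀ z ∈ closedBall c r, g z ≠ 0)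
    (hb : ∀ z ∈ closedBall c r, ‖g z‖ ≤ Real.exp B * ‖g c‖) {z : ℂ} (hz : z ∈ closedBall c r1) :
    ‖g c‖ ≤ ‖g z‖ * Real.exp (2 * (B + 1) * r1 / (r - r1)) := by
  have hr : 0 < r := hr1.trans h1r
  have hcr : c ∈ ball c r := mem_ball_self hr
  have hd : DifferentiableOn ℂ (logDeriv g) (ball c r) := by
    intro w hw
    have hw' := ball_subset_closedBall hw
    have h1 : AnalyticAt ℂ (logDeriv g) w := (hg w hw').deriv.div (hg w hw') (hg0 w hw')
    exact h1.differentiableAt.differentiableWithinAt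
  obtain ⟨h, hhc, hh⟩ := hd.isExactOn_ball.with_val_at c 0
  have hconst : ∀ w ∈ ball c r, g w * cexp (-h w) = g c := by
    intro w hw
    have hderiv : ∀ x ∈ ball c r, HasDerivAt (fun y => g y * cexp (-h y)) 0 x := by
      intro x hx
      have hx' := ball_subset_closedBall hx
      have e1 : HasDerivAt g (deriv g x) x := (hg x hx').differentiableAt.hasDerivAt
      have e2 : HasDerivAt (fun y => cexp (-h y)) (cexp (-h x) * (-(logDeriv g x))) x :=
        ((hh x hx).neg).cexp
      have e3 : HasDerivAt (fun y => g y * cexp (-h y))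
          (deriv g x * cexp (-h x) + g x * (cexp (-h x) * (-(logDeriv g x)))) x := e1.mul e2
      have e4 : deriv g x * cexp (-h x) + g x * (cexp (-h x) * (-(logDeriv g x))) = 0 := by
        have := hg0 x hx'
        rw [logDeriv_apply]
        field_simp
        ring
      rwa [e4] at e3
    have hcv : Convex ℝ (ball c r) := convex_ball c r
    have := hcv.is_const_of_fderivWithin_eq_zero (𝕜 := ℂ) (f := fun y => g y * cexp (-h y))
      (fun x hx => (hderiv x hx).differentiableAt.differentiableWithinAt)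
      (fun x hx => by
        have h5 := (hderiv x hx).hasFDerivAt.hasFDerivWithinAt (s := ball c r)
        rw [h5.fderivWithin (isOpen_ball.uniqueDiffWithinAt hx)]
        ext; simp) hw hcr
    simp only [hhc, neg_zero, Complex.exp_zero, mul_one] at this
    exact this
  have hgc : 0 < ‖g c‖ := norm_pos_iff.2 (hg0 c (mem_closedBall_self hr.le))
  have hre : ∀ w ∈ ball c r, (h w).re ≤ B + 1 := by
    intro w hw
    have h1 := hconst w hw
    have h2 : ‖g w‖ * Real.exp (-(h w).re) = ‖g c‖ := by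
      rw [← h1, norm_mul, Complex.norm_exp]
      simp
    have h3 := hb w (ball_subset_closedBall hw)
    have h4 : ‖g c‖ ≤ Real.exp B * ‖g c‖ * Real.exp (-(h w).re) := by
      calc ‖g c‖ = ‖g w‖ * Real.exp (-(h w).re) := h2.symm
        _ ≤ _ := mul_le_mul_of_nonneg_right h3 (Real.exp_pos _).le
    have h5 : 1 ≤ Real.exp B * Real.exp (-(h w).re) := by
      by_contra hcon
      push Not at hcon
      nlinarith
    rw [← Real.exp_add, Real.one_le_exp_iff] at h5
    linarith
  have hw1 : ‖z - c‖ ≤ r1 := by rwa [mem_closedBall, dist_eq_norm] at hz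
  have hw2 : z - c ∈ ball (0 : ℂ) r := by rw [mem_ball_zero_iff]; linarith
  have hzb : z ∈ ball c r := by rw [mem_ball, dist_eq_norm]; linarith
  have hmap : ∀ x : ℂ, x ∈ ball (0 : ℂ) r → c + x ∈ ball c r := by
    intro x hx
    rw [mem_ball_zero_iff] at hx
    rw [mem_ball, dist_eq_norm, add_sub_cancel_left]
    exact hx
  have hbc := Complex.borelCaratheodory_zero (f := fun x => h (c + x)) (M := B + 1) (R := r)
    (z := z - c) (by linarith)
    (fun x hx => by
      have h1 := (hh (c + x) (hmap x hx)).differentiableAt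
      have h2 : DifferentiableAt ℂ (fun y : ℂ => c + y) x := by fun_prop
      exact (h1.comp x h2).differentiableWithinAt)
    (fun x hx => hre _ (hmap x hx)) hr hw2 (by simp [hhc])
  have hcz : c + (z - c) = z := by ring
  simp only [hcz] at hbc
  have hhz : ‖h z‖ ≤ 2 * (B + 1) * r1 / (r - r1) := by
    refine hbc.trans ?_
    have h1 : 0 < r - r1 := by linarith
    have h2 : r - r1 ≤ r - ‖z - c‖ := by linarith
    gcongr
  rw [← hconst z hzb, norm_mul, Complex.norm_exp]
  refine mul_le_mul_of_nonneg_left (Real.exp_le_exp.2 ?_) (norm_nonneg _)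
  refine le_trans ?_ hhz
  have := Complex.abs_re_le_norm (h z)
  rw [Complex.neg_re]
  exact (neg_le_abs _).trans this

/-- the same for functions of polynomial growth in `Re s > a` -/
lemma inv_half {a : ℝ} (ha : 1 / 2 ≤ a) (ha1 : a < 1) {c0 : ℝ} (hc0 : 0 < c0) (hc1 : c0 ≤ 1) :
    ∃ A C : ℝ, 0 ≤ A ∧ 0 ≤ C ∧ ∀ (g : ℂ → ℂ) (P : ℝ), 1 ≤ P → Differentiable ℂ g →
      (∀ s : ℂ, a < s.re → g s ≠ 0) → (∀ t : ℝ, c0 ≤ ‖g ⟨2, t⟩‖) →
      (∀ s : ℂ, 1 / 4 ≤ s.re → s.re ≤ 4 → ‖g s‖ ≤ P * (|s.im| + 3) ^ 2) →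
      ∀ s : ℂ, 1 - (1 - a) / 2 ≤ s.re → s.re ≤ 2 → ‖g s‖⁻¹ ≤ C * P ^ A * (|s.im| + 3) ^ (2 * A) := by
  set d : ℝ := 1 - a with hd
  have hd0 : 0 < d := by linarith
  have hd1 : d ≤ 1 / 2 := by linarith
  set r1 : ℝ := 1 + d / 2 with hr1
  set r : ℝ := 1 + 3 * d / 4 with hr
  have hrr : r - r1 = d / 4 := by rw [hr, hr1]; ring
  set K : ℝ := 2 * r1 / (d / 4) with hK
  have hK0 : 0 ≤ K := by rw [hK]; positivity
  refine ⟨K, c0⁻¹ * Real.exp K * (4 / c0) ^ K, hK0, by positivity, fun g P hP hg hg0 hlow hgr s hs1 hs2 => ?_⟩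
  set t : ℝ := s.im with ht
  have ht0 := abs_nonneg t
  set c : ℂ := ⟨2, t⟩ with hc
  have hlc := hlow t
  set W : ℝ := 4 / c0 * (P * (|t| + 3) ^ 2) with hW
  have hW1 : 1 ≤ W := by
    have h1 : 1 ≤ 4 / c0 := by rw [le_div_iff₀ hc0]; linarith
    have h2 : 1 ≤ P * (|t| + 3) ^ 2 := by nlinarith
    nlinarith
  have hW0 : 0 < W := by linarith
  have hball : ∀ z ∈ closedBall c r, 1 / 4 ≤ z.re ∧ z.re ≤ 4 ∧ a < z.re ∧ |z.im| + 3 ≤ 2 * (|t| + 3) := by
    intro z hz
    rw [mem_closedBall, dist_eq_norm] at hz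
    have h1 := (Complex.abs_re_le_norm (z - c)).trans hz
    have h2 := (Complex.abs_im_le_norm (z - c)).trans hz
    simp only [Complex.sub_re, Complex.sub_im, hc] at h1 h2
    rw [abs_le] at h1
    have h3 : |z.im| ≤ |t| + r := by
      have h4 : z.im = (z.im - t) + t := by ring
      rw [h4]
      exact (abs_add_le _ _).trans (by linarith)
    refine ⟨?_, ?_, ?_, ?_⟩
    · have := h1.1
      rw [hr] at this
      linarith
    · have := h1.2
      rw [hr] at this
      linarith
    · have := h1.1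
      rw [hr] at this
      linarith
    · rw [hr] at h3
      linarith
  have hB : 0 ≤ Real.log W := Real.log_nonneg hW1
  have key := inv_bound (g := g) (c := c) (r := r) (r1 := r1) (B := Real.log W) (by positivity)
    (by linarith) hB (fun z _ => hg.analyticAt z)
    (fun z hz => hg0 z (hball z hz).2.2.1)
    (fun z hz => by
      obtain ⟨h1, h2, h3, h4⟩ := hball z hz
      rw [Real.exp_log hW0]
      refine (hgr z h1 h2).trans ?_
      have h5 : (|z.im| + 3) ^ 2 ≤ (2 * (|t| + 3)) ^ 2 :=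
        pow_le_pow_left₀ (by positivity) h4 2
      have h6 : P * (|z.im| + 3) ^ 2 ≤ P * (2 * (|t| + 3)) ^ 2 :=
        mul_le_mul_of_nonneg_left h5 (by linarith)
      refine h6.trans ?_
      have h7 : P * (2 * (|t| + 3)) ^ 2 = W * c0 := by
        rw [hW]; field_simp; ring
      rw [h7]
      exact mul_le_mul_of_nonneg_left hlc hW0.le) (z := s) (by
      rw [mem_closedBall, dist_eq_norm]
      have h1 : s - c = ((s.re - 2 : ℝ) : ℂ) := by
        apply Complex.ext
        · simp [hc]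
        · simp [hc, ht]
      rw [h1, Complex.norm_real, Real.norm_eq_abs, abs_le]
      constructor
      · rw [hr1]; linarith
      · linarith)
  have e1 : 2 * (Real.log W + 1) * r1 / (r - r1) = K + K * Real.log W := by
    rw [hrr, hK]; ring
  rw [e1, Real.exp_add] at key
  have e2 : Real.exp (K * Real.log W) = W ^ K := by
    rw [Real.rpow_def_of_pos hW0]; ring_nf
  rw [e2] at key
  have hgs : 0 < ‖g s‖ := norm_pos_iff.2 (hg0 s (by linarith))
  have h1 : ‖g s‖⁻¹ ≤ c0⁻¹ * (Real.exp K * W ^ K) := by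
    rw [inv_eq_one_div, div_le_iff₀ hgs]
    have h2 : c0 ≤ ‖g s‖ * (Real.exp K * W ^ K) := hlc.trans key
    calc (1 : ℝ) = c0⁻¹ * c0 := by rw [inv_mul_cancel₀ hc0.ne']
      _ ≤ c0⁻¹ * (‖g s‖ * (Real.exp K * W ^ K)) := mul_le_mul_of_nonneg_left h2 (by positivity)
      _ = _ := by ring
  refine h1.trans (le_of_eq ?_)
  have e3 : W ^ K = (4 / c0) ^ K * (P ^ K * (|t| + 3) ^ (2 * K)) := by
    rw [hW, Real.mul_rpow (by positivity) (by positivity), Real.mul_rpow (by positivity) (by positivity)]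
    congr 2
    rw [← Real.rpow_natCast, ← Real.rpow_mul (by positivity)]
    norm_num
  rw [e3]
  ring

lemma prod_bd (q : ℕ) [NeZero q] {s : ℂ} (hs : 0 ≤ s.re) :
    ‖∏ p ∈ q.primeFactors, (1 - (p : ℂ) ^ (-s))‖ ≤ q := by
  have h1 : ‖∏ p ∈ q.primeFactors, (1 - (p : ℂ) ^ (-s))‖ ≤ ∏ p ∈ q.primeFactors, (p : ℝ) := by
    rw [norm_prod]
    refine Finset.prod_le_prod (fun _ _ => norm_nonneg _) fun p hp => ?_
    have hp' : p.Prime := Nat.prime_of_mem_primeFactors hp
    refine (norm_sub_le _ _).trans ?_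
    rw [Complex.norm_natCast_cpow_of_pos hp'.pos, Complex.neg_re, norm_one]
    have h2 : (p : ℝ) ^ (-s.re) ≤ 1 := by
      apply Real.rpow_le_one_of_one_le_of_nonpos
      · exact_mod_cast hp'.one_lt.le
      · linarith
    have h3 : (2 : ℝ) ≤ p := by exact_mod_cast hp'.two_le
    linarith
  refine h1.trans ?_
  rw [← Nat.cast_prod]
  exact_mod_cast Nat.le_of_dvd (NeZero.pos q) (Nat.prod_primeFactors_dvd q)

lemma lseries_mu (q : ℕ) [NeZero q] (χ : DirichletCharacter ℂ q) {s : ℂ} (hs : 1 < s.re) :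
    LSeries (fun n => ((ArithmeticFunction.moebius n : ℤ) : ℂ) * χ (n : ZMod q)) s = (χ.LFunction s)⁻¹ := by
  have h1 := DirichletCharacter.LSeries.mul_mu_eq_one χ hs
  have h2 := DirichletCharacter.LFunction_eq_LSeries χ hs
  rw [← h2] at h1
  have h3 : (χ.LFunction s) ≠ 0 := left_ne_zero_of_mul_eq_one h1
  have h4 : LSeries (fun n => ((ArithmeticFunction.moebius n : ℤ) : ℂ) * χ (n : ZMod q)) s =
      LSeries ((fun n : ℕ => χ (n : ZMod q)) * fun n : ℕ => ((ArithmeticFunction.moebius n : ℤ) : ℂ)) s := by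
    congr 1
    funext n
    simp only [Pi.mul_apply]
    ring
  rw [h4]
  exact eq_inv_of_mul_eq_one_right h1

theorem m2a : S_M2a := by
  intro a0 ha0 hZ0
  obtain ⟨c0, hc0, hc1, hlow⟩ := LF_low
  set a : ℝ := max a0 (1 / 2) with ha
  have ha1 : a < 1 := max_lt ha0 (by norm_num)
  have ha2 : 1 / 2 ≤ a := le_max_right _ _
  have hZ : ∀ (q : ℕ) [NeZero q] (χ : DirichletCharacter ℂ q) (s : ℂ),
      a < s.re → s ≠ 1 → DirichletCharacter.LFunction χ s ≠ 0 := fun q _ χ s hs h1 =>
    hZ0 q χ s ((le_max_left _ _).trans_lt hs) h1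
  obtain ⟨A, C, hA, hC, hinv⟩ := inv_half ha2 ha1 hc0 hc1
  refine ⟨1 - (1 - a) / 2, 2 * A + 1, C * 20 ^ A, by linarith, by linarith, by positivity, by positivity,
    fun q _ χ => ?_⟩
  have hq : (1 : ℝ) ≤ q := by exact_mod_cast NeZero.one_le
  have hfin : ∀ (s : ℂ), C * (20 * (q : ℝ)) ^ A * (|s.im| + 3) ^ (2 * A) * (|s.im| + 3) ≤
      C * 20 ^ A * (q : ℝ) ^ (2 * A + 1) * (|s.im| + 3) ^ (2 * A + 1) := by
    intro s
    have h1 : (0 : ℝ) < |s.im| + 3 := by positivity
    rw [Real.mul_rpow (by norm_num) (by linarith), Real.rpow_add h1, Real.rpow_one]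
    have h2 : (q : ℝ) ^ A ≤ (q : ℝ) ^ (2 * A + 1) := Real.rpow_le_rpow_of_exponent_le hq (by linarith)
    calc C * (20 ^ A * (q : ℝ) ^ A) * (|s.im| + 3) ^ (2 * A) * (|s.im| + 3) =
        (C * 20 ^ A * ((|s.im| + 3) ^ (2 * A) * (|s.im| + 3))) * (q : ℝ) ^ A := by ring
      _ ≤ (C * 20 ^ A * ((|s.im| + 3) ^ (2 * A) * (|s.im| + 3))) * (q : ℝ) ^ (2 * A + 1) :=
        mul_le_mul_of_nonneg_left h2 (by positivity)
      _ = _ := by ring
  by_cases hχ : χ = 1
  · subst hχ
    set g : ℂ → ℂ := DirichletCharacter.LFunctionTrivChar₁ q with hg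
    have hgd : Differentiable ℂ g := DirichletCharacter.differentiable_LFunctionTrivChar₁ q
    have hge : ∀ s : ℂ, s ≠ 1 → g s = (s - 1) * DirichletCharacter.LFunctionTrivChar q s := by
      intro s hs
      rw [hg, DirichletCharacter.LFunctionTrivChar₁, Function.update_of_ne hs]
    have hg0 : ∀ s : ℂ, a < s.re → g s ≠ 0 := by
      intro s hs
      by_cases h1 : s = 1
      · rw [h1]
        exact DirichletCharacter.LFunctionTrivChar₁_apply_one_ne_zero q
      · rw [hge s h1]
        exact mul_ne_zero (sub_ne_zero.2 h1) (hZ q 1 s hs h1)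
    have hg2 : ∀ t : ℝ, c0 ≤ ‖g ⟨2, t⟩‖ := by
      intro t
      have h1 : (⟨2, t⟩ : ℂ) ≠ 1 := by
        intro h
        have := congrArg Complex.re h
        simp at this
      rw [hge _ h1, norm_mul]
      have h2 := hlow q 1 t
      have h3 : (1 : ℝ) ≤ ‖(⟨2, t⟩ : ℂ) - 1‖ := by
        have := Complex.abs_re_le_norm ((⟨2, t⟩ : ℂ) - 1)
        simp only [Complex.sub_re, Complex.one_re] at this
        refine le_trans ?_ this
        norm_num
      have h4 : 0 ≤ ‖DirichletCharacter.LFunctionTrivChar q ⟨2, t⟩‖ := norm_nonneg _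
      have h5 : c0 ≤ ‖DirichletCharacter.LFunctionTrivChar q ⟨2, t⟩‖ := h2
      nlinarith
    have hgZ : ∀ s : ℂ, g s = (∏ p ∈ q.primeFactors, (1 - (p : ℂ) ^ (-s))) * Z1 s := by
      have h0 : ∀ s : ℂ, s ≠ 1 → g s = (∏ p ∈ q.primeFactors, (1 - (p : ℂ) ^ (-s))) * Z1 s := by
        intro s hs
        rw [hge s hs, DirichletCharacter.LFunctionTrivChar_eq_mul_riemannZeta hs, Z1_eq hs]
        ring
      intro s
      by_cases h1 : s = 1
      · subst h1
        have hc1 : ContinuousAt g 1 := (hgd 1).continuousAt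
        have hc2 : ContinuousAt (fun s : ℂ => (∏ p ∈ q.primeFactors, (1 - (p : ℂ) ^ (-s))) * Z1 s) 1 := by
          refine ContinuousAt.mul ?_ (Z1_diff 1).continuousAt
          refine tendsto_finsetProd _ fun p hp => ?_
          have hp' : p.Prime := Nat.prime_of_mem_primeFactors hp
          have hp0 : (p : ℂ) ≠ 0 := by exact_mod_cast hp'.ne_zero
          have : ContinuousAt (fun s : ℂ => 1 - (p : ℂ) ^ (-s)) 1 := by
            refine continuousAt_const.sub ?_
            exact ContinuousAt.const_cpow (by fun_prop) (Or.inl hp0)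
          exact this
        have h2 : Tendsto g (𝓝[≠] 1) (𝓝 (g 1)) := hc1.tendsto.mono_left nhdsWithin_le_nhds
        have h3 := hc2.tendsto.mono_left (nhdsWithin_le_nhds (s := {1}ᶜ))
        have h4 : g =ᶠ[𝓝[≠] 1] (fun s : ℂ => (∏ p ∈ q.primeFactors, (1 - (p : ℂ) ^ (-s))) * Z1 s) := by
          filter_upwards [self_mem_nhdsWithin] with s hs
          exact h0 s hs
        exact tendsto_nhds_unique (h2.congr' h4) h3
      · exact h0 s h1
    have hgr : ∀ s : ℂ, 1 / 4 ≤ s.re → s.re ≤ 4 → ‖g s‖ ≤ (20 * (q : ℝ)) * (|s.im| + 3) ^ 2 := by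
      intro s hs1 hs2
      rw [hgZ, norm_mul]
      have h1 := prod_bd q (s := s) (by linarith)
      have h2 := Z1_growth hs1
      have h3 : ‖s‖ ≤ |s.im| + 4 := by
        refine (Complex.norm_le_abs_re_add_abs_im _).trans ?_
        rw [abs_of_nonneg (by linarith : 0 ≤ s.re)]
        linarith
      have h4 : ‖s - 1‖ ≤ |s.im| + 3 := by
        refine (Complex.norm_le_abs_re_add_abs_im _).trans ?_
        simp only [Complex.sub_re, Complex.one_re, Complex.sub_im, Complex.one_im, sub_zero]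
        have : |s.re - 1| ≤ 3 := by rw [abs_le]; constructor <;> linarith
        linarith
      have h5 := abs_nonneg s.im
      have h6 : ‖Z1 s‖ ≤ 20 * (|s.im| + 3) ^ 2 := by
        refine h2.trans ?_
        have h7 : ‖s - 1‖ * ‖s‖ ≤ (|s.im| + 3) * (|s.im| + 4) :=
          mul_le_mul h4 h3 (norm_nonneg _) (by linarith)
        nlinarith
      calc _ ≤ (q : ℝ) * (20 * (|s.im| + 3) ^ 2) := mul_le_mul h1 h6 (norm_nonneg _) (by linarith)
        _ = _ := by ring
    have hI := hinv g (20 * (q : ℝ)) (by linarith) hgd hg0 hg2 hgr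
    refine ⟨fun s => (s - 1) * (g s)⁻¹, ?_, ?_, ?_⟩
    · intro s hs
      have hs' : a < s.re := by
        have : 1 - (1 - a) / 2 < s.re := hs
        linarith
      exact ((differentiableAt_id.sub_const 1).mul ((hgd s).inv (hg0 s hs'))).differentiableWithinAt
    · intro s hs
      rw [lseries_mu q 1 hs]
      have h1 : s ≠ 1 := by
        intro h
        rw [h] at hs
        simp at hs
      have h2 : s - 1 ≠ 0 := sub_ne_zero.2 h1
      simp only [hge s h1]
      rw [mul_inv, ← mul_assoc, mul_inv_cancel₀ h2, one_mul]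
    · intro s hs1 hs2
      rw [norm_mul, norm_inv]
      have h4 : ‖s - 1‖ ≤ |s.im| + 3 := by
        refine (Complex.norm_le_abs_re_add_abs_im _).trans ?_
        simp only [Complex.sub_re, Complex.one_re, Complex.sub_im, Complex.one_im, sub_zero]
        have : |s.re - 1| ≤ 3 := by rw [abs_le]; constructor <;> linarith
        linarith
      have h5 := hI s hs1.le hs2
      refine le_trans ?_ (hfin s)
      rw [mul_comm (‖s - 1‖)]
      exact mul_le_mul h5 h4 (norm_nonneg _) (by positivity)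
  · set g : ℂ → ℂ := χ.LFunction with hg
    have hgd : Differentiable ℂ g := DirichletCharacter.differentiable_LFunction hχ
    have hg0 : ∀ s : ℂ, a < s.re → g s ≠ 0 := by
      intro s hs
      by_cases h1 : s = 1
      · rw [h1]
        exact LF_ne_zero hχ (by simp)
      · exact hZ q χ s hs h1
    have hgr : ∀ s : ℂ, 1 / 4 ≤ s.re → s.re ≤ 4 → ‖g s‖ ≤ (20 * (q : ℝ)) * (|s.im| + 3) ^ 2 := by
      intro s hs1 hs2
      refine (LF_growth hχ hs1).trans ?_
      have h3 : ‖s‖ ≤ |s.im| + 4 := by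
        refine (Complex.norm_le_abs_re_add_abs_im _).trans ?_
        rw [abs_of_nonneg (by linarith : 0 ≤ s.re)]
        linarith
      have h5 := abs_nonneg s.im
      have h6 : (q : ℝ) * ‖s‖ ≤ q * (|s.im| + 4) := mul_le_mul_of_nonneg_left h3 (by linarith)
      have h7 : (q : ℝ) * (|s.im| + 4) ≤ q * (|s.im| + 3) ^ 2 := by
        refine mul_le_mul_of_nonneg_left ?_ (by linarith)
        nlinarith
      have h8 : 1 ≤ (q : ℝ) * (|s.im| + 3) ^ 2 := by nlinarith
      nlinarith
    have hI := hinv g (20 * (q : ℝ)) (by linarith) hgd hg0 (fun t => hlow q χ t) hgr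
    refine ⟨fun s => (g s)⁻¹, ?_, ?_, ?_⟩
    · intro s hs
      have hs' : a < s.re := by
        have : 1 - (1 - a) / 2 < s.re := hs
        linarith
      exact ((hgd s).inv (hg0 s hs')).differentiableWithinAt
    · intro s hs
      rw [lseries_mu q χ hs]
    · intro s hs1 hs2
      rw [norm_inv]
      refine (hI s hs1.le hs2).trans (le_trans ?_ (hfin s))
      have h1 : 0 ≤ C * (20 * (q : ℝ)) ^ A * (|s.im| + 3) ^ (2 * A) := by positivity
      have h2 : (1 : ℝ) ≤ |s.im| + 3 := by linarith [abs_nonneg s.im]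
      nlinarith

end Pool.Agent.T9h53.LZ
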