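import Pool.Agent.T9h54.LZ.V
import Pool.Agent.T9h54.LZ.Spec2

/-! # Project LZ: major arcs -/

set_option autoImplicit false

open Finset Complex

namespace Pool.Agent.T9h53.LZ

open Pool.Agent.T9h54.LZ

lemma F_eq (R : ℕ) (x : ℝ) : F R x = ∑ n ∈ Icc 1 R, mu n * cexp (2 * Real.pi * I * n * x) := rfl

/-- partial summation -/
lemma abel {c : ℕ → ℂ} {β B : ℝ} {R : ℕ} (hB : ∀ M ≤ R, ‖∑ n ∈ Icc 1 M, c n‖ ≤ B) :
    ‖∑ n ∈ Icc 1 R, c n * cexp (2 * Real.pi * I * n * β)‖ ≤ (1 + 2 * Real.pi * |β| * R) * B := by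
  have hB0 : 0 ≤ B := (norm_nonneg _).trans (hB 0 (Nat.zero_le _))
  have hg : ∀ n : ℕ, ‖cexp (2 * Real.pi * I * n * β)‖ = 1 := by
    intro n
    have e : (2 * Real.pi * I * n * β : ℂ) = ((2 * Real.pi * n * β : ℝ) : ℂ) * I := by
      push_cast
      ring
    rw [e, Complex.norm_exp_ofReal_mul_I]
  have hd : ∀ n : ℕ, ‖cexp (2 * Real.pi * I * n * β) - cexp (2 * Real.pi * I * (n + 1 : ℕ) * β)‖ ≤
      2 * Real.pi * |β| := by
    intro n
    have e : cexp (2 * Real.pi * I * n * β) - cexp (2 * Real.pi * I * (n + 1 : ℕ) * β) =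
        -(cexp (2 * Real.pi * I * n * β) * (cexp (I * ((2 * Real.pi * β : ℝ) : ℂ)) - 1)) := by
      rw [mul_sub, mul_one, ← Complex.exp_add, neg_sub]
      congr 2
      push_cast
      ring
    rw [e, norm_neg, norm_mul, hg, one_mul]
    refine (Real.norm_exp_I_mul_ofReal_sub_one_le).trans (le_of_eq ?_)
    rw [Real.norm_eq_abs, abs_mul, abs_of_pos (by positivity)]
  have key : ∀ k ≤ R, ‖(∑ n ∈ Icc 1 k, c n * cexp (2 * Real.pi * I * n * β)) -
      (∑ n ∈ Icc 1 k, c n) * cexp (2 * Real.pi * I * k * β)‖ ≤ 2 * Real.pi * |β| * k * B := by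
    intro k
    induction k with
    | zero => intro _; simp
    | succ k ih =>
      intro hk
      have h1 := ih (by omega)
      rw [Finset.sum_Icc_succ_top (by omega), Finset.sum_Icc_succ_top (by omega)]
      have e : (∑ n ∈ Icc 1 k, c n * cexp (2 * Real.pi * I * n * β)) +
          c (k + 1) * cexp (2 * Real.pi * I * (k + 1 : ℕ) * β) -
          ((∑ n ∈ Icc 1 k, c n) + c (k + 1)) * cexp (2 * Real.pi * I * (k + 1 : ℕ) * β) =
          ((∑ n ∈ Icc 1 k, c n * cexp (2 * Real.pi * I * n * β)) -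
            (∑ n ∈ Icc 1 k, c n) * cexp (2 * Real.pi * I * k * β)) +
          (∑ n ∈ Icc 1 k, c n) * (cexp (2 * Real.pi * I * k * β) -
            cexp (2 * Real.pi * I * (k + 1 : ℕ) * β)) := by ring
      rw [e]
      refine (norm_add_le _ _).trans ?_
      rw [norm_mul]
      have h2 : ‖∑ n ∈ Icc 1 k, c n‖ * ‖cexp (2 * Real.pi * I * k * β) -
          cexp (2 * Real.pi * I * (k + 1 : ℕ) * β)‖ ≤ B * (2 * Real.pi * |β|) :=
        mul_le_mul (hB k (by omega)) (hd k) (norm_nonneg _) hB0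
      push_cast at h2 ⊢
      linarith
  have h1 := key R le_rfl
  have h2 : ‖(∑ n ∈ Icc 1 R, c n) * cexp (2 * Real.pi * I * R * β)‖ ≤ B := by
    rw [norm_mul, hg, mul_one]
    exact hB R le_rfl
  calc _ = ‖((∑ n ∈ Icc 1 R, c n * cexp (2 * Real.pi * I * n * β)) -
      (∑ n ∈ Icc 1 R, c n) * cexp (2 * Real.pi * I * R * β)) +
      (∑ n ∈ Icc 1 R, c n) * cexp (2 * Real.pi * I * R * β)‖ := by rw [sub_add_cancel]
    _ ≤ 2 * Real.pi * |β| * R * B + B := (norm_add_le _ _).trans (add_le_add h1 h2)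
    _ = _ := by ring

variable {q : ℕ} [NeZero q]

/-- sums of `μ(n)` times the Gauss sum -/
lemma sum_mu_cc (χ : DirichletCharacter ℂ q) (M : ℕ) :
    ∑ n ∈ Icc 1 M, mu n * cc χ n =
      ∑ d ∈ q.divisors, mu d * cc χ d * ∑ m ∈ Icc 1 (M / d), mu m * χ (m : ZMod q) := by
  have h1 : ∀ n ∈ Icc 1 M, mu n * cc χ n =
      ∑ p ∈ n.divisorsAntidiagonal, gg χ p.1 * (χ (p.2 : ZMod q) * mu p.2) := by
    intro n hn
    rw [conv_eq χ n (by have := (mem_Icc.mp hn).1; omega), LSeries.convolution_def]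
  rw [Finset.sum_congr rfl h1]
  have h2 : ∑ n ∈ Icc 1 M, ∑ p ∈ n.divisorsAntidiagonal,
      gg χ p.1 * (χ (p.2 : ZMod q) * mu p.2) =
      ∑ d ∈ Icc 1 M, ∑ m ∈ Icc 1 (M / d), gg χ d * (χ (m : ZMod q) * mu m) := by
    rw [Finset.sum_sigma', Finset.sum_sigma']
    refine Finset.sum_bij' (fun p _ => ⟨p.2.1, p.2.2⟩) (fun p _ => ⟨p.1 * p.2, (p.1, p.2)⟩) ?_ ?_ ?_ ?_ ?_
    · rintro ⟨n, d, m⟩ hp
      simp only [mem_sigma, mem_Icc, Nat.mem_divisorsAntidiagonal] at hp ⊢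
      obtain ⟨⟨hn1, hn2⟩, hdm, hn0⟩ := hp
      have hd : 0 < d := by
        rcases Nat.eq_zero_or_pos d with h | h
        · rw [h, zero_mul] at hdm
          omega
        · exact h
      have hm : 0 < m := by
        rcases Nat.eq_zero_or_pos m with h | h
        · rw [h, mul_zero] at hdm
          omega
        · exact h
      refine ⟨⟨hd, ?_⟩, hm, ?_⟩
      · calc d ≤ d * m := Nat.le_mul_of_pos_right _ hm
          _ ≤ M := by omega
      · rw [Nat.le_div_iff_mul_le hd, mul_comm]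
        omega
    · rintro ⟨d, m⟩ hp
      simp only [mem_sigma, mem_Icc, Nat.mem_divisorsAntidiagonal] at hp ⊢
      obtain ⟨⟨hd1, hd2⟩, hm1, hm2⟩ := hp
      rw [Nat.le_div_iff_mul_le (by omega), mul_comm] at hm2
      have : 0 < d * m := Nat.mul_pos (by omega) (by omega)
      exact ⟨⟨by omega, hm2⟩, trivial, by omega⟩
    · rintro ⟨n, d, m⟩ hp
      simp only [mem_sigma, mem_Icc, Nat.mem_divisorsAntidiagonal] at hp
      obtain ⟨-, hdm, -⟩ := hp
      simp only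
      subst hdm
      rfl
    · rintro ⟨d, m⟩ hp
      rfl
    · rintro ⟨n, d, m⟩ hp
      rfl
  rw [h2]
  have h3 : ∀ d ∈ Icc 1 M, ∑ m ∈ Icc 1 (M / d), gg χ d * (χ (m : ZMod q) * mu m) =
      if d ∈ q.divisors then mu d * cc χ d * ∑ m ∈ Icc 1 (M / d), mu m * χ (m : ZMod q) else 0 := by
    intro d _
    split_ifs with hd
    · rw [Finset.mul_sum]
      apply Finset.sum_congr rfl
      intro m _
      unfold gg
      rw [if_pos hd]
      ring
    · apply Finset.sum_eq_zero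
      intro m _
      unfold gg
      rw [if_neg hd, zero_mul]
  rw [Finset.sum_congr rfl h3, ← Finset.sum_filter]
  apply Finset.sum_subset_zero_on_sdiff
  · intro d hd
    exact (Finset.mem_filter.mp hd).2
  · intro d hd
    rw [Finset.mem_sdiff, Finset.mem_filter, mem_Icc] at hd
    have hd1 : 1 ≤ d := Nat.pos_of_mem_divisors hd.1
    have hd2 : M < d := by
      by_contra hc
      exact hd.2 ⟨⟨hd1, by omega⟩, hd.1⟩
    rw [Nat.div_eq_of_lt hd2]
    simp
  · intro d _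
    rfl

omit [NeZero q] in
lemma card_div_le : (q.divisors.card : ℝ) ≤ q := by
  exact_mod_cast Nat.card_divisors_le_self q

/-- rational points -/
lemma F_rat {C A δ : ℝ} (hC : 0 ≤ C) (hδ : δ ≤ 1)
    (hM2 : ∀ (χ : DirichletCharacter ℂ q) (R : ℕ), 1 ≤ R →
      ‖∑ n ∈ Icc 1 R, mu n * χ (n : ZMod q)‖ ≤ C * (q : ℝ) ^ A * (R : ℝ) ^ (1 - δ))
    (b : (ZMod q)ˣ) (M : ℕ) (hM : 1 ≤ M) :
    ‖∑ n ∈ Icc 1 M, mu n * ad (b : ZMod q) n‖ ≤ C * (q : ℝ) ^ (A + 2) * (M : ℝ) ^ (1 - δ) := by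
  have hq0 : (0 : ℝ) < q := by exact_mod_cast Nat.pos_of_ne_zero (NeZero.ne q)
  have hφ : (0 : ℝ) < (q.totient : ℝ) := by
    exact_mod_cast Nat.totient_pos.mpr (Nat.pos_of_ne_zero (NeZero.ne q))
  have hM0 : (0 : ℝ) < M := by exact_mod_cast hM
  set V : ℝ := C * (q : ℝ) ^ A * (M : ℝ) ^ (1 - δ) with hV
  have hV0 : 0 ≤ V := by positivity
  have h1 : ∀ χ : DirichletCharacter ℂ q, ‖∑ n ∈ Icc 1 M, mu n * cc χ n‖ ≤ q * (q * V) := by
    intro χ
    rw [sum_mu_cc]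
    refine (norm_sum_le _ _).trans ?_
    calc ∑ d ∈ q.divisors, ‖mu d * cc χ d * ∑ m ∈ Icc 1 (M / d), mu m * χ (m : ZMod q)‖ ≤
        ∑ d ∈ q.divisors, q * V := by
          apply Finset.sum_le_sum
          intro d hd
          have hd1 : 1 ≤ d := Nat.pos_of_mem_divisors hd
          rw [norm_mul, norm_mul]
          have h2 : ‖mu d‖ * ‖cc χ d‖ ≤ 1 * q :=
            mul_le_mul (norm_mu_le d) (norm_cc_le χ d) (norm_nonneg _) zero_le_one
          rw [one_mul] at h2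
          refine mul_le_mul h2 ?_ (norm_nonneg _) hq0.le
          rcases Nat.eq_zero_or_pos (M / d) with h | h
          · rw [h]
            simpa using hV0
          · refine (hM2 χ (M / d) h).trans ?_
            rw [hV]
            apply mul_le_mul_of_nonneg_left _ (by positivity)
            apply Real.rpow_le_rpow (by positivity) _ (by linarith)
            exact_mod_cast Nat.div_le_self M d
      _ = q.divisors.card * (q * V) := by
        rw [Finset.sum_const, nsmul_eq_mul]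
      _ ≤ q * (q * V) := mul_le_mul_of_nonneg_right card_div_le (by positivity)
  have h2 : (q.totient : ℂ) * ∑ n ∈ Icc 1 M, mu n * ad (b : ZMod q) n =
      ∑ χ : DirichletCharacter ℂ q, χ (b : ZMod q) * ∑ n ∈ Icc 1 M, mu n * cc χ n := by
    rw [Finset.mul_sum]
    have h3 : ∀ χ : DirichletCharacter ℂ q, χ (b : ZMod q) * ∑ n ∈ Icc 1 M, mu n * cc χ n =
        ∑ n ∈ Icc 1 M, mu n * (χ (b : ZMod q) * cc χ n) := by
      intro χ
      rw [Finset.mul_sum]
      apply Finset.sum_congr rfl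
      intro n _
      ring
    rw [Finset.sum_congr rfl fun χ _ => h3 χ, Finset.sum_comm]
    apply Finset.sum_congr rfl
    intro n _
    rw [← Finset.mul_sum, sum_char b n]
    ring
  have h4 : (q.totient : ℝ) * ‖∑ n ∈ Icc 1 M, mu n * ad (b : ZMod q) n‖ ≤
      q.totient * (q * (q * V)) := by
    have h5 := congrArg norm h2
    rw [norm_mul, Complex.norm_natCast] at h5
    rw [h5]
    refine (norm_sum_le _ _).trans ?_
    calc ∑ χ : DirichletCharacter ℂ q, ‖χ (b : ZMod q) * ∑ n ∈ Icc 1 M, mu n * cc χ n‖ ≤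
        ∑ _χ : DirichletCharacter ℂ q, (q * (q * V) : ℝ) := by
          apply Finset.sum_le_sum
          intro χ _
          rw [norm_mul]
          calc _ ≤ 1 * (q * (q * V)) := mul_le_mul (DirichletCharacter.norm_le_one χ _) (h1 χ)
                (norm_nonneg _) zero_le_one
            _ = _ := one_mul _
      _ = _ := by
        rw [Finset.sum_const, nsmul_eq_mul, Finset.card_univ, ← Nat.card_eq_fintype_card,
          DirichletCharacter.card_eq_totient_of_hasEnoughRootsOfUnity ℂ q]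
  have h6 := le_of_mul_le_mul_left h4 hφ
  refine h6.trans (le_of_eq ?_)
  rw [hV, Real.rpow_add hq0, Real.rpow_two]
  ring

/-- the additive character at a fraction -/
lemma ad_frac {a : ℤ} {b : (ZMod q)ˣ} (hb : (b : ZMod q) = (a : ZMod q)) (n : ℕ) :
    ad (b : ZMod q) n = cexp (2 * Real.pi * I * n * ((a / q : ℝ) : ℂ)) := by
  unfold ad
  have e : (n : ZMod q) * (b : ZMod q) = ((n * a : ℤ) : ZMod q) := by
    rw [hb]
    push_cast
    ring
  rw [e, ZMod.stdAddChar_coe]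
  congr 1
  push_cast
  ring

/-- points near a fraction with a small denominator -/
lemma F_major {C A δ : ℝ} (hC : 0 ≤ C) (hδ : δ ≤ 1)
    (hM2 : ∀ (χ : DirichletCharacter ℂ q) (R : ℕ), 1 ≤ R →
      ‖∑ n ∈ Icc 1 R, mu n * χ (n : ZMod q)‖ ≤ C * (q : ℝ) ^ A * (R : ℝ) ^ (1 - δ))
    {a : ℤ} (ha : IsCoprime a (q : ℤ)) (x : ℝ) (R : ℕ) :
    ‖F R x‖ ≤ (1 + 2 * Real.pi * |x - a / q| * R) * (C * (q : ℝ) ^ (A + 2) * (R : ℝ) ^ (1 - δ)) := by
  obtain ⟨b, hb⟩ : ∃ b : (ZMod q)ˣ, (b : ZMod q) = (a : ZMod q) := by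
    have h1 : IsUnit (a : ZMod q) := (ZMod.coe_int_isUnit_iff_isCoprime a q).mpr ha.symm
    exact ⟨h1.unit, h1.unit_spec⟩
  have hq0 : (0 : ℝ) < q := by exact_mod_cast Nat.pos_of_ne_zero (NeZero.ne q)
  have h1 : F R x = ∑ n ∈ Icc 1 R, (mu n * ad (b : ZMod q) n) *
      cexp (2 * Real.pi * I * n * ((x - a / q : ℝ) : ℂ)) := by
    rw [F_eq]
    apply Finset.sum_congr rfl
    intro n _
    have e : cexp (2 * Real.pi * I * n * x) = cexp (2 * Real.pi * I * n * ((a / q : ℝ) : ℂ)) *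
        cexp (2 * Real.pi * I * n * ((x - a / q : ℝ) : ℂ)) := by
      rw [← Complex.exp_add]
      congr 1
      push_cast
      ring
    rw [ad_frac hb, e]
    ring
  rw [h1]
  apply abel
  intro M hM
  rcases Nat.eq_zero_or_pos M with h | h
  · rw [h]
    simp only [show Icc 1 0 = (∅ : Finset ℕ) by rfl, sum_empty, norm_zero]
    positivity
  · refine (F_rat hC hδ hM2 b M h).trans ?_
    apply mul_le_mul_of_nonneg_left _ (by positivity)
    exact Real.rpow_le_rpow (by positivity) (by exact_mod_cast hM) (by linarith)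

theorem m3 : S_M3 := by
  intro hM1 hM2 hz
  obtain ⟨a₀, ha₀, hz⟩ := hz
  obtain ⟨δ₂, hδ₂, C₂, A₂, h2⟩ := hM2 a₀ ha₀ hz
  set C : ℝ := max C₂ 0 with hC
  set A : ℝ := max A₂ 0 with hA
  set δ : ℝ := min δ₂ 1 with hδ
  have hC0 : 0 ≤ C := le_max_right _ _
  have hA0 : 0 ≤ A := le_max_right _ _
  have hδ0 : 0 < δ := lt_min hδ₂ one_pos
  have hδ1 : δ ≤ 1 := min_le_right _ _
  have h2' : ∀ (q : ℕ) [NeZero q] (χ : DirichletCharacter ℂ q) (R : ℕ), 1 ≤ R →
      ‖∑ n ∈ Icc 1 R, mu n * χ (n : ZMod q)‖ ≤ C * (q : ℝ) ^ A * (R : ℝ) ^ (1 - δ) := by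
    intro q _ χ R hR
    have hq1 : (1 : ℝ) ≤ q := by exact_mod_cast Nat.pos_of_ne_zero (NeZero.ne q)
    have hR1 : (1 : ℝ) ≤ R := by exact_mod_cast hR
    refine (h2 q χ R hR).trans ?_
    have e1 : (q : ℝ) ^ A₂ ≤ (q : ℝ) ^ A := Real.rpow_le_rpow_of_exponent_le hq1 (le_max_left _ _)
    have e2 : (R : ℝ) ^ (1 - δ₂) ≤ (R : ℝ) ^ (1 - δ) :=
      Real.rpow_le_rpow_of_exponent_le hR1 (by linarith [min_le_left δ₂ 1])
    have e3 : C₂ ≤ C := le_max_left _ _
    have e4 : 0 ≤ (q : ℝ) ^ A₂ := by positivity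
    calc C₂ * (q : ℝ) ^ A₂ * (R : ℝ) ^ (1 - δ₂) ≤ C * (q : ℝ) ^ A₂ * (R : ℝ) ^ (1 - δ₂) := by
          gcongr
      _ ≤ C * (q : ℝ) ^ A * (R : ℝ) ^ (1 - δ) := by gcongr
  set η : ℝ := min (1 / 8) (δ / (2 * (A + 3))) with hη
  have hη0 : 0 < η := by positivity
  have hη1 : η ≤ 1 / 8 := min_le_left _ _
  have hη2 : η * (A + 3) ≤ δ / 2 := by
    have h1 : η ≤ δ / (2 * (A + 3)) := min_le_right _ _
    rw [le_div_iff₀ (by positivity)] at h1
    linarith
  obtain ⟨δ₁, hδ₁, C₁, h1⟩ := hM1 η hη0 (by linarith)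
  refine ⟨min δ₁ (δ / 2), by positivity, |C₁| + 8 * C, ?_⟩
  intro R x hR
  have hR1 : (1 : ℝ) ≤ R := by exact_mod_cast hR
  have hR0 : (0 : ℝ) < R := by linarith
  set N : ℕ := ⌊(R : ℝ) ^ (1 - η)⌋₊ with hN
  have hRη : (1 : ℝ) ≤ (R : ℝ) ^ (1 - η) := Real.one_le_rpow hR1 (by linarith)
  have hN1 : 0 < N := Nat.floor_pos.mpr hRη
  have hNle : (N : ℝ) ≤ (R : ℝ) ^ (1 - η) := Nat.floor_le (by positivity)
  have hNgt : (R : ℝ) ^ (1 - η) < N + 1 := Nat.lt_floor_add_one _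
  obtain ⟨r, hr1, hr2⟩ := Real.exists_rat_abs_sub_le_and_den_le x hN1
  set q : ℕ := r.den with hq
  have hq1 : 1 ≤ q := r.pos
  have hqr : (1 : ℝ) ≤ q := by exact_mod_cast hq1
  have hq0 : (0 : ℝ) < q := by linarith
  have hqN : (q : ℝ) ≤ N := by exact_mod_cast hr2
  have hrc : (r : ℝ) = (r.num : ℝ) / q := by
    rw [Rat.cast_def]
  rw [hrc] at hr1
  have hco : IsCoprime r.num (q : ℤ) := by
    rw [Int.isCoprime_iff_gcd_eq_one]
    exact r.reduced
  have hpow : ∀ e : ℝ, min δ₁ (δ / 2) ≤ e → (R : ℝ) ^ (1 - e) ≤ (R : ℝ) ^ (1 - min δ₁ (δ / 2)) :=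
    fun e he => Real.rpow_le_rpow_of_exponent_le hR1 (by linarith)
  by_cases hc : (R : ℝ) ^ η ≤ q
  · have h3 : |x - (r.num : ℝ) / q| ≤ 1 / (q : ℝ) ^ 2 := by
      refine hr1.trans ?_
      apply one_div_le_one_div_of_le (by positivity)
      rw [sq]
      apply mul_le_mul_of_nonneg_right _ hq0.le
      linarith
    refine (h1 R x q r.num hR hq1 hco h3 hc (hqN.trans hNle)).trans ?_
    calc C₁ * (R : ℝ) ^ (1 - δ₁) ≤ |C₁| * (R : ℝ) ^ (1 - min δ₁ (δ / 2)) :=
          mul_le_mul (le_abs_self _) (hpow _ (min_le_left _ _)) (by positivity) (abs_nonneg _)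
      _ ≤ (|C₁| + 8 * C) * (R : ℝ) ^ (1 - min δ₁ (δ / 2)) := by
        apply mul_le_mul_of_nonneg_right _ (by positivity)
        linarith
  · push Not at hc
    have : NeZero q := ⟨by omega⟩
    have h3 := F_major hC0 hδ1 (h2' q) hco x R
    have h4 : |x - (r.num : ℝ) / q| * R ≤ (R : ℝ) ^ η := by
      have h5 : |x - (r.num : ℝ) / q| ≤ 1 / (R : ℝ) ^ (1 - η) := by
        refine hr1.trans ?_
        apply one_div_le_one_div_of_le (by positivity)
        calc (R : ℝ) ^ (1 - η) ≤ (N + 1) * 1 := by linarith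
          _ ≤ (N + 1) * q := by
            apply mul_le_mul_of_nonneg_left hqr (by positivity)
      calc |x - (r.num : ℝ) / q| * R ≤ 1 / (R : ℝ) ^ (1 - η) * R :=
            mul_le_mul_of_nonneg_right h5 hR0.le
        _ = (R : ℝ) ^ η := by
          rw [one_div, ← Real.rpow_neg hR0.le, ← Real.rpow_add_one hR0.ne']
          congr 1
          ring
    have hRη1 : (1 : ℝ) ≤ (R : ℝ) ^ η := Real.one_le_rpow hR1 hη0.le
    have h6 : 1 + 2 * Real.pi * |x - (r.num : ℝ) / q| * R ≤ 8 * (R : ℝ) ^ η := by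
      have hpi := Real.pi_lt_d2
      have hpi0 := Real.pi_pos
      have h7 : 2 * Real.pi * (|x - (r.num : ℝ) / q| * R) ≤ 7 * (R : ℝ) ^ η :=
        mul_le_mul (by linarith) h4 (by positivity) (by norm_num)
      linarith
    have h8 : (q : ℝ) ^ (A + 2) ≤ (R : ℝ) ^ (η * (A + 2)) := by
      rw [Real.rpow_mul hR0.le]
      exact Real.rpow_le_rpow hq0.le hc.le (by positivity)
    refine h3.trans ?_
    calc (1 + 2 * Real.pi * |x - (r.num : ℝ) / q| * R) *
        (C * (q : ℝ) ^ (A + 2) * (R : ℝ) ^ (1 - δ)) ≤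
        (8 * (R : ℝ) ^ η) * (C * (R : ℝ) ^ (η * (A + 2)) * (R : ℝ) ^ (1 - δ)) := by gcongr
      _ = 8 * C * (R : ℝ) ^ (η + η * (A + 2) + (1 - δ)) := by
        rw [Real.rpow_add hR0, Real.rpow_add hR0]
        ring
      _ ≤ 8 * C * (R : ℝ) ^ (1 - δ / 2) := by
        apply mul_le_mul_of_nonneg_left _ (by positivity)
        apply Real.rpow_le_rpow_of_exponent_le hR1
        have : η + η * (A + 2) = η * (A + 3) := by ring
        linarith
      _ ≤ 8 * C * (R : ℝ) ^ (1 - min δ₁ (δ / 2)) :=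
        mul_le_mul_of_nonneg_left (hpow _ (min_le_right _ _)) (by positivity)
      _ ≤ (|C₁| + 8 * C) * (R : ℝ) ^ (1 - min δ₁ (δ / 2)) := by
        apply mul_le_mul_of_nonneg_right _ (by positivity)
        linarith [abs_nonneg C₁]

end Pool.Agent.T9h53.LZ
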